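import Pool.Agent.Lib.MP_e7c4c5_co.Qp.Ctx

/-!
Bands of levels: pairs of equally coloured excursions are short, by induction on the binary
expansion of the level.
-/

set_option autoImplicit false

namespace Pool.Agent.Lib.MP_e7c4c5_co.Qp

open Pool.Agent.Lib.MP_e7c4c5_co.Sub

variable {V : Type} {G : SimpleGraph V} {ℓ : V → ℕ}

/-- Every excursion below `θ` that has an equally coloured mate returns within `X`. -/
def NoExc (G : SimpleGraph V) (ℓ : V → ℕ) {C : Type} (c : V → C) (θ X : ℕ) : Prop :=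
  ∀ (e e' : ℕ → V) (m : ℕ), IsWalk G e m → IsWalk G e' m →
    (∀ i ≤ m, e i ≠ e' i ∧ c (e i) = c (e' i)) → θ ≤ ℓ (e 0) →
    (∀ i, 0 < i → i < m → ℓ (e i) < θ) → Near G ℓ θ X (e 0) (e m)

theorem seq_near [Fintype V] [DecidableEq V] {Z Λ θ θ' ρ X : ℕ} {β C : Type}
    {h : V × Fin (Z * Z + 1) → β} (hh : Hash G ℓ ρ Z h) (hΛ : 0 < Λ) (hℓ : ∀ v, ℓ v < Z)
    (hT : ∀ v j, ℓ v < j → {x | j + 1 ≤ ℓ x ∧ Near G ℓ j ρ v x}.ncard ≤ 4)
    (hX : Z * (2 * (Z * (Z * Λ)) + Λ) + Z * (Z * Λ) ≤ X) (hθ : θ' ≤ θ)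
    (hρ : 2 * (X + Λ + Z * (Z * Λ)) + Λ ≤ ρ) {c : V → C} (hc : ∀ a b, c a = c b → ℓ a = ℓ b)
    (hd : ∀ a b, c a = c b → θ' ≤ ℓ a → ℓ a < θ → ∀ j, InR G ℓ Z Λ θ j a →
      {i | j < i ∧ InR G ℓ Z Λ θ i a}.ncard ≤ 5 →
      InR G ℓ Z Λ θ j b ∧ h (obj G ℓ Z Λ j a) = h (obj G ℓ Z Λ j b))
    {u u' : V} (hu : ¬ Near G ℓ θ ρ u u') (y y' : ℕ → V) (N : ℕ)
    (h0 : Near G ℓ θ Λ u (y 0) ∧ Near G ℓ θ Λ u' (y' 0))
    (hy : ∀ p ≤ N, θ' ≤ ℓ (y p) ∧ ℓ (y p) < θ ∧ c (y p) = c (y' p))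
    (hl : ∀ p < N, Near G ℓ θ' Λ (y p) (y (p + 1)) ∧ Near G ℓ θ' Λ (y' p) (y' (p + 1))) :
    ∀ p ≤ N, Near G ℓ θ X u (y p) ∧ Near G ℓ θ X u' (y' p) := by
  intro p
  induction p using Nat.strong_induction_on with
  | _ p ih =>
    intro hp
    have he : ∀ a ≤ N, ℓ (y' a) = ℓ (y a) := fun a ha => (hc _ _ (hy a ha).2.2).symm
    have hn : ∀ a ≤ p, Near G ℓ θ (X + Λ) u (y a) ∧ Near G ℓ θ (X + Λ) u' (y' a) := by
      intro a ha
      rcases a with _ | a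
      · exact ⟨h0.1.mono le_rfl (by omega), h0.2.mono le_rfl (by omega)⟩
      · have e1 := ih a (by omega) (by omega)
        have e2 := hl a (by omega)
        have e3 := (hy a (by omega)).2.1
        exact ⟨e1.1.trans (e2.1.mono hθ le_rfl) (Or.inl e3),
          e1.2.trans (e2.2.mono hθ le_rfl) (Or.inl ((he a (by omega)).symm ▸ e3))⟩
    refine ⟨(one_ctx (θ' := θ') hh hΛ hℓ hT hρ hu y y' p h0.1 (fun a ha => ?_) (fun a ha => ?_)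
        (fun a ha => hl a (by omega)) hn).mono le_rfl hX,
      (one_ctx (θ' := θ') hh hΛ hℓ hT hρ (fun h => hu h.symm) y' y p h0.2 (fun a ha => ?_)
        (fun a ha => ?_) (fun a ha => (hl a (by omega)).symm) fun a ha => (hn a ha).symm).mono
        le_rfl hX⟩
    · have := hy a (by omega)
      rw [he a (by omega)]
      exact ⟨this.1, this.2.1, this.2.1⟩
    · have := hy a (by omega)
      exact hd _ _ this.2.2 this.1 this.2.1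
    · have := hy a (by omega)
      rw [he a (by omega)]
      exact ⟨this.1, this.2.1, this.2.1⟩
    · have := hy a (by omega)
      rw [← he a (by omega)] at this
      exact hd _ _ this.2.2.symm this.1 this.2.1

theorem NoExc.link {C : Type} {c : V → C} {θ X : ℕ} (h : NoExc G ℓ c θ X)
    (hc : ∀ a b, c a = c b → ℓ a = ℓ b) {e e' : ℕ → V} {m : ℕ} (h1 : IsWalk G e m)
    (h2 : IsWalk G e' m) (h3 : ∀ i ≤ m, e i ≠ e' i ∧ c (e i) = c (e' i)) {a b : ℕ} (hab : a ≤ b)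
    (hb : b ≤ m) (h4 : θ ≤ ℓ (e a)) (h5 : ∀ i, a < i → i < b → ℓ (e i) < θ) :
    Near G ℓ θ X (e a) (e b) ∧ Near G ℓ θ X (e' a) (e' b) := by
  have k1 := h (fun i => e (a + i)) (fun i => e' (a + i)) (b - a) (fun i hi => h1 (a + i) (by omega))
    (fun i hi => h2 (a + i) (by omega)) (fun i hi => h3 _ (by omega)) h4
    fun i hi hi' => h5 _ (by omega) (by omega)
  have k2 := h (fun i => e' (a + i)) (fun i => e (a + i)) (b - a) (fun i hi => h2 (a + i) (by omega))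
    (fun i hi => h1 (a + i) (by omega))
    (fun i hi => ⟨(h3 _ (by omega)).1.symm, (h3 _ (by omega)).2.symm⟩)
    (h4.trans_eq (hc _ _ (h3 a (by omega)).2))
    fun i hi hi' => (hc _ _ (h3 (a + i) (by omega)).2) ▸ h5 _ (by omega) (by omega)
  simp only [show a + (b - a) = b by omega] at k1 k2
  exact ⟨k1, k2⟩

theorem band_step [Fintype V] [DecidableEq V] {Z Λ θ θ' ρ X : ℕ} {β C : Type}
    {h : V × Fin (Z * Z + 1) → β} (hh : Hash G ℓ ρ Z h) (hΛ : 0 < Λ) (hℓ : ∀ v, ℓ v < Z)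
    (hT : ∀ v j, ℓ v < j → {x | j + 1 ≤ ℓ x ∧ Near G ℓ j ρ v x}.ncard ≤ 4)
    (hX : Z * (2 * (Z * (Z * Λ)) + Λ) + Z * (Z * Λ) ≤ X) (hθ : θ' ≤ θ)
    (hρ : 2 * (X + Λ + Z * (Z * Λ)) + Λ ≤ ρ) {c : V → C} (hc : ∀ a b, c a = c b → ℓ a = ℓ b)
    (hψ : ∀ a b, c a = c b → a ≠ b → θ ≤ ℓ a → ¬ Near G ℓ θ ρ a b)
    (hd : ∀ a b, c a = c b → θ' ≤ ℓ a → ℓ a < θ → ∀ j, InR G ℓ Z Λ θ j a →
      {i | j < i ∧ InR G ℓ Z Λ θ i a}.ncard ≤ 5 →
      InR G ℓ Z Λ θ j b ∧ h (obj G ℓ Z Λ j a) = h (obj G ℓ Z Λ j b))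
    (hN : NoExc G ℓ c θ' Λ) : NoExc G ℓ c θ (X + Λ) := by
  classical
  intro e e' m h1 h2 h3 h4 h5
  by_cases hex : ∃ p, 0 < p ∧ p < m ∧ θ' ≤ ℓ (e p)
  swap
  · push Not at hex
    exact (hN.link hc h1 h2 h3 (Nat.zero_le m) le_rfl (hθ.trans h4) hex).1.mono hθ (by omega)
  obtain ⟨a1, a2, a3⟩ := Nat.find_spec hex
  set p₁ := Nat.find hex with hp₁
  let last : ℕ → ℕ := fun p => Nat.findGreatest (fun q => θ' ≤ ℓ (e q)) p
  have l1 : ∀ p, last p ≤ p := fun p => Nat.findGreatest_le p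
  have l2 : ∀ p, p₁ ≤ p → p₁ ≤ last p := fun p hp => Nat.le_findGreatest hp a3
  have l3 : ∀ p, p₁ ≤ p → θ' ≤ ℓ (e (last p)) := fun p hp =>
    Nat.findGreatest_spec (P := fun q => θ' ≤ ℓ (e q)) hp a3
  have l4 : ∀ p z, last p < z → z ≤ p → ℓ (e z) < θ' := fun p z hz hz' =>
    not_le.1 (Nat.findGreatest_is_greatest (P := fun q => θ' ≤ ℓ (e q)) hz hz')
  have l5 : ∀ p, last p ≤ last (p + 1) := fun p => Nat.findGreatest_mono_right _ (Nat.le_succ p)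
  have k0 := hN.link hc h1 h2 h3 (Nat.zero_le p₁) a2.le (hθ.trans h4) fun i hi hi' =>
    not_le.1 fun h => Nat.find_min hex hi' ⟨hi, by omega, h⟩
  have e0 : last (p₁ + 0) = p₁ := le_antisymm (l1 _) (l2 _ le_rfl)
  have key := seq_near hh hΛ hℓ hT hX hθ hρ hc hd
    (hψ _ _ (h3 0 (Nat.zero_le _)).2 (h3 0 (Nat.zero_le _)).1 h4)
    (fun p => e (last (p₁ + p))) (fun p => e' (last (p₁ + p))) (m - 1 - p₁)
    (by rw [e0]; exact ⟨k0.1.mono hθ le_rfl, k0.2.mono hθ le_rfl⟩) (fun p hp => by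
      have b1 := l1 (p₁ + p)
      have b2 := l2 (p₁ + p) (by omega)
      exact ⟨l3 _ (by omega), h5 _ (by omega) (by omega), (h3 _ (by omega)).2⟩) (fun p hp => by
      have b1 := l1 (p₁ + p + 1)
      exact hN.link (b := last (p₁ + p + 1)) hc h1 h2 h3 (l5 (p₁ + p)) (by omega) (l3 _ (by omega))
        fun i hi hi' => l4 _ _ hi (by omega)) (m - 1 - p₁) le_rfl
  simp only [show p₁ + (m - 1 - p₁) = m - 1 by omega] at key
  have b1 := l1 (m - 1)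
  have b2 := l2 (m - 1) (by omega)
  exact key.1.trans ((hN.link hc h1 h2 h3 (by omega) le_rfl (l3 _ (by omega))
    fun i hi hi' => l4 _ _ hi (by omega)).1.mono hθ le_rfl) (Or.inl (h5 _ (by omega) (by omega)))

theorem noExc_zero {C : Type} (c : V → C) : NoExc G ℓ c 0 1 := by
  intro e e' m h1 _ _ _ h5
  refine ⟨e, m, ?_, h1, rfl, rfl, h5⟩
  by_contra hm
  exact absurd (h5 1 Nat.one_pos (by omega)) (Nat.not_lt_zero _)

theorem NoExc.mono {C : Type} {c : V → C} {θ X X' : ℕ} (h : NoExc G ℓ c θ X) (hX : X ≤ X') :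
    NoExc G ℓ c θ X' :=
  fun e e' m h1 h2 h3 h4 h5 => (h e e' m h1 h2 h3 h4 h5).mono le_rfl hX

/-- The context that a vertex of level `l` serves at scale `i`. -/
def ctx (i l : ℕ) : ℕ := 2 ^ i * (l / 2 ^ i + 1)

theorem noExc_all [Fintype V] [DecidableEq V] {Z D : ℕ} {β C : Type}
    {h : V × Fin (Z * Z + 1) → β} (hh : Hash G ℓ (6 * (5 * Z ^ 3) ^ D) Z h) (hZ : 1 ≤ Z)
    (hD : Z ≤ 2 ^ D) (hℓ : ∀ v, ℓ v < Z)
    (hT : ∀ v j, ℓ v < j → {x | j + 1 ≤ ℓ x ∧ Near G ℓ j (6 * (5 * Z ^ 3) ^ D) v x}.ncard ≤ 4)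
    {c : V → C} (hc : ∀ a b, c a = c b → ℓ a = ℓ b)
    (hψ : ∀ a b, c a = c b → a ≠ b → ¬ Near G ℓ (ℓ a) (6 * (5 * Z ^ 3) ^ D) a b)
    (hd : ∀ d < D, ∀ a b, c a = c b → ∀ j,
      InR G ℓ Z ((5 * Z ^ 3) ^ d) (ctx (D - (d + 1)) (ℓ a)) j a →
      {i | j < i ∧ InR G ℓ Z ((5 * Z ^ 3) ^ d) (ctx (D - (d + 1)) (ℓ a)) i a}.ncard ≤ 5 →
      InR G ℓ Z ((5 * Z ^ 3) ^ d) (ctx (D - (d + 1)) (ℓ a)) j b ∧
        h (obj G ℓ Z ((5 * Z ^ 3) ^ d) j a) = h (obj G ℓ Z ((5 * Z ^ 3) ^ d) j b)) :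
    ∀ d ≤ D, ∀ θ < Z, 2 ^ (D - d) ∣ θ → NoExc G ℓ c θ ((5 * Z ^ 3) ^ d) := by
  intro d
  induction d with
  | zero =>
    intro _ θ h1 h2
    obtain rfl : θ = 0 := Nat.eq_zero_of_dvd_of_lt h2 (h1.trans_le hD)
    exact noExc_zero c
  | succ d ih =>
    intro hd' θ h1 h2
    have hΦ : 1 ≤ 5 * Z ^ 3 := Nat.succ_le_of_lt (by positivity)
    have e1 : D - d = D - (d + 1) + 1 := by omega
    obtain ⟨a, rfl⟩ := h2
    rcases Nat.even_or_odd' a with ⟨b, rfl | rfl⟩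
    · refine (ih (by omega) _ h1 ⟨b, by rw [e1]; ring⟩).mono (Nat.pow_le_pow_right hΦ (by omega))
    have hp : 0 < 2 ^ (D - (d + 1)) := by positivity
    have e2 : 2 ^ (D - (d + 1)) * (2 * b + 1) = 2 ^ (D - (d + 1)) * (2 * b) + 2 ^ (D - (d + 1)) := by
      ring
    have hΛ : 0 < (5 * Z ^ 3) ^ d := by positivity
    have e3 : (5 * Z ^ 3) ^ (d + 1) ≤ (5 * Z ^ 3) ^ D := Nat.pow_le_pow_right hΦ hd'
    have hN := ih (by omega) (2 ^ (D - (d + 1)) * (2 * b)) (by omega) ⟨b, by rw [e1]; ring⟩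
    have hdd := hd d (by omega)
    rw [pow_succ] at e3 ⊢
    generalize (5 * Z ^ 3) ^ d = Λ at *
    have z1 : Λ ≤ Z * Λ := Nat.le_mul_of_pos_left _ hZ
    have z2 : Z * Λ ≤ Z * (Z * Λ) := Nat.le_mul_of_pos_left _ hZ
    have z3 : Z * (Z * Λ) ≤ Z * (Z * (Z * Λ)) := Nat.le_mul_of_pos_left _ hZ
    have z4 : Λ * (5 * Z ^ 3) = 5 * (Z * (Z * (Z * Λ))) := by ring
    have z5 : Z * (2 * (Z * (Z * Λ)) + Λ) = 2 * (Z * (Z * (Z * Λ))) + Z * Λ := by ring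
    refine (band_step (X := 4 * (Z * (Z * (Z * Λ)))) hh hΛ hℓ hT (by omega) (by omega) (by omega) hc
      (fun a b h1 h2 h3 h4 => hψ a b h1 h2 (h4.mono h3 le_rfl)) (fun a b' h1 h2 h3 => ?_) hN).mono
      (by omega)
    have e4 : ctx (D - (d + 1)) (ℓ a) = 2 ^ (D - (d + 1)) * (2 * b + 1) := by
      unfold ctx
      rw [Nat.div_eq_of_lt_le (k := 2 * b) (by rw [mul_comm]; exact h2)
        (by rw [mul_comm]; exact h3)]
    rw [← e4]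
    exact hdd a b' h1

end Pool.Agent.Lib.MP_e7c4c5_co.Qp
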