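import Pool.Agent.Lib.MP_e7c4c5_co.Qp.Near

/-!
One context: servers that display their top six levels in range keep an excursion short.
-/

set_option autoImplicit false

namespace Pool.Agent.Lib.MP_e7c4c5_co.Qp

open Pool.Agent.Lib.MP_e7c4c5_co.Sub

variable {V : Type} {G : SimpleGraph V} {ℓ : V → ℕ}

theorem grow {W : Type} [DecidableEq W] (o : ℕ → W) (Φ : W → ℕ → Prop) (N : ℕ)
    (hm : ∀ x k, Φ x k → Φ x (k + 1)) (h0 : Φ (o 0) 1)
    (hs : ∀ p < N, ∀ k, Φ (o p) k → Φ (o (p + 1)) (k + 1)) :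
    ∀ p ≤ N, ∀ a ≤ p, Φ (o a) ((Finset.range (p + 1)).image o).card := by
  intro p
  induction p with
  | zero =>
    intro _ a ha
    obtain rfl : a = 0 := by omega
    simpa using h0
  | succ p ih =>
    intro hp a ha
    have ih' := ih (by omega)
    rw [Finset.range_add_one, Finset.image_insert]
    by_cases hc : o (p + 1) ∈ (Finset.range (p + 1)).image o
    · rw [Finset.insert_eq_of_mem hc]
      rcases ha.lt_or_eq with h | rfl
      · exact ih' a (by omega)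
      · obtain ⟨b, hb, e⟩ := Finset.mem_image.1 hc
        rw [← e]
        exact ih' b (by have := Finset.mem_range.1 hb; omega)
    · rw [Finset.card_insert_of_notMem hc]
      rcases ha.lt_or_eq with h | rfl
      · exact hm _ _ (ih' a (by omega))
      · exact hs p (by omega) _ (ih' p le_rfl)

/-- Level `j` is in range at `y` in the context `θ` with scale `Λ`. -/
def InR (G : SimpleGraph V) (ℓ : V → ℕ) (Z Λ θ j : ℕ) (y : V) : Prop :=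
  j < θ ∧ Hit G ℓ j ((Z - j) * (Z * Λ)) y

/-- The object that `y` names at level `j`. -/
noncomputable def obj (G : SimpleGraph V) (ℓ : V → ℕ) (Z Λ j : ℕ) (y : V) : V × Fin (Z * Z + 1) :=
  (anc G ℓ j y, Fin.ofNat _ (rad G ℓ j y / Λ))

/-- Equal or tied anchors. -/
def Tie (G : SimpleGraph V) (ℓ : V → ℕ) (ρ : ℕ) {α : Type} (p p' : V × α) : Prop :=
  p'.1 = p.1 ∨ Reach G ρ {u | ℓ p.1 ≤ ℓ u} p.1 p'.1

/-- The conclusion of the union bound. -/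
def Hash (G : SimpleGraph V) (ℓ : V → ℕ) (ρ Z : ℕ) {β : Type} [DecidableEq V]
    (h : V × Fin (Z * Z + 1) → β) : Prop :=
  ∀ (a b : ℕ → V × Fin (Z * Z + 1)) (N : ℕ), (∀ i < N, Tie G ℓ ρ (a i) (a (i + 1))) →
    (∀ i < N, Tie G ℓ ρ (b i) (b (i + 1))) → (∀ i ≤ N, ∀ j ≤ N, a i ≠ b j) →
    (∀ i ≤ N, h (a i) = h (b i)) → ((Finset.range (N + 1)).image a).card < Z

theorem sig_le (Z Λ j : ℕ) : (Z - j) * (Z * Λ) ≤ Z * (Z * Λ) :=
  Nat.mul_le_mul_right _ (Nat.sub_le _ _)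

theorem rank_le [Fintype V] {Z Λ θ ρ J : ℕ} {y : V}
    (hT : ∀ v j, ℓ v < j → {x | j + 1 ≤ ℓ x ∧ Near G ℓ j ρ v x}.ncard ≤ 4)
    (hρ : Z * (Z * Λ) ≤ ρ) (hy : ℓ y ≤ J)
    (hJ : ∀ j, J < j → j < θ → ¬ Hit G ℓ j ((Z - (j + 1)) * (Z * Λ)) y) :
    {j | J < j ∧ InR G ℓ Z Λ θ j y}.ncard ≤ 5 := by
  classical
  have h1 : {j | J < j ∧ InR G ℓ Z Λ θ j y} ⊆
      insert (J + 1) (ℓ '' {x | J + 1 + 1 ≤ ℓ x ∧ Near G ℓ (J + 1) ρ y x}) := by
    rintro j ⟨a1, a2, -, c, a3, w, m, b1, b2, b3, b4, b5⟩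
    by_cases hj : j = J + 1
    · exact Or.inl hj
    refine Or.inr ⟨c, ⟨by omega, w, m, b1.trans ((sig_le _ _ _).trans hρ), b2, b3, b4,
      fun i hi hi' => ?_⟩, a3⟩
    by_contra hc
    have hex : ∃ z, J < ℓ (w z) := ⟨i, by omega⟩
    have e1 := Nat.find_spec hex
    have e2 : Nat.find hex ≤ i := Nat.find_min' hex (by omega)
    have e3 : 0 < Nat.find hex := Nat.pos_of_ne_zero fun e => by
      rw [e, b3] at e1
      omega
    have e4 := b5 _ e3 (by omega)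
    refine hJ _ e1 (by omega) ⟨by omega, _, rfl, w, Nat.find hex, ?_,
      fun z hz => b2 z (by omega), b3, rfl, fun z _ hz => ?_⟩
    · exact le_trans (by omega) (b1.trans (Nat.mul_le_mul_right _ (by omega)))
    · have := Nat.find_min hex hz
      omega
  refine (Set.ncard_le_ncard h1 (Set.toFinite _)).trans ((Set.ncard_insert_le _ _).trans ?_)
  exact Nat.succ_le_succ ((Set.ncard_image_le (Set.toFinite _)).trans (hT y (J + 1) (by omega)))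

theorem tie_of_hit {Z Λ ρ J r : ℕ} {y y' : V} (h : Hit G ℓ J r y) (h' : Hit G ℓ J r y')
    (hl : Near G ℓ J Λ y y') (hρ : 2 * r + Λ ≤ ρ) :
    Tie G ℓ ρ (obj G ℓ Z Λ J y) (obj G ℓ Z Λ J y') := by
  by_cases e : anc G ℓ J y' = anc G ℓ J y
  · exact Or.inl e
  · exact Or.inr (((h.tie h' hl).mono le_rfl hρ).reach h.anc_spec.1.ge
      (h.anc_spec.1.trans h'.anc_spec.1.symm).le e)

theorem stretch [DecidableEq V] {Z Λ ρ J r : ℕ} {β : Type} {h : V × Fin (Z * Z + 1) → β}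
    (hh : Hash G ℓ ρ Z h) (hρ : 2 * r + Λ ≤ ρ) (y y' : ℕ → V) (n : ℕ)
    (hy : ∀ p ≤ n, Hit G ℓ J r (y p))
    (hd : ∀ p ≤ n, Hit G ℓ J r (y p) → Hit G ℓ J r (y' p) ∧
      h (obj G ℓ Z Λ J (y p)) = h (obj G ℓ Z Λ J (y' p)))
    (hl : ∀ p < n, Near G ℓ J Λ (y p) (y (p + 1)) ∧ Near G ℓ J Λ (y' p) (y' (p + 1)))
    (hne : ∀ p ≤ n, ∀ q ≤ n, Hit G ℓ J r (y p) → Hit G ℓ J r (y' q) →
      anc G ℓ J (y p) ≠ anc G ℓ J (y' q)) :
    ((Finset.range (n + 1)).image fun p => obj G ℓ Z Λ J (y p)).card < Z :=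
  hh _ (fun p => obj G ℓ Z Λ J (y' p)) n
    (fun i hi => tie_of_hit (hy i hi.le) (hy _ hi) (hl i hi).1 hρ)
    (fun i hi => tie_of_hit (hd i hi.le (hy i hi.le)).1 (hd _ hi (hy _ hi)).1 (hl i hi).2 hρ)
    (fun i hi j hj e => hne i hi j hj (hy i hi) (hd j hj (hy j hj)).1 (congrArg Prod.fst e))
    fun i hi => (hd i hi (hy i hi)).2

theorem obj_val {Z Λ J : ℕ} (hΛ : 0 < Λ) {y : V} (h : Hit G ℓ J ((Z - J) * (Z * Λ)) y) :
    ((obj G ℓ Z Λ J y).2 : ℕ) = rad G ℓ J y / Λ := by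
  refine Nat.mod_eq_of_lt (Nat.lt_succ_of_le (Nat.div_le_of_le_mul ?_))
  calc _ ≤ Z * (Z * Λ) := h.rad_le.trans (sig_le _ _ _)
    _ = _ := by ring

theorem stay [DecidableEq V] {Z Λ ρ J : ℕ} {β : Type} {h : V × Fin (Z * Z + 1) → β}
    (hh : Hash G ℓ ρ Z h) (hΛ : 0 < Λ) (hJ : J < Z) (hρ : 2 * ((Z - J) * (Z * Λ)) + Λ ≤ ρ)
    (y y' : ℕ → V) (n : ℕ) (h0 : Hit G ℓ J ((Z - (J + 1)) * (Z * Λ)) (y 0))
    (hy : ∀ p ≤ n, ℓ (y p) ≤ J)
    (hd : ∀ p ≤ n, Hit G ℓ J ((Z - J) * (Z * Λ)) (y p) → Hit G ℓ J ((Z - J) * (Z * Λ)) (y' p) ∧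
      h (obj G ℓ Z Λ J (y p)) = h (obj G ℓ Z Λ J (y' p)))
    (hl : ∀ p < n, Near G ℓ J Λ (y p) (y (p + 1)) ∧ Near G ℓ J Λ (y' p) (y' (p + 1)))
    (hne : ∀ p ≤ n, ∀ q ≤ n, Hit G ℓ J ((Z - J) * (Z * Λ)) (y p) →
      Hit G ℓ J ((Z - J) * (Z * Λ)) (y' q) → anc G ℓ J (y p) ≠ anc G ℓ J (y' q)) :
    ∀ p ≤ n, Hit G ℓ J ((Z - J) * (Z * Λ)) (y p) := by
  intro p
  induction p using Nat.strong_induction_on with
  | _ p ih =>
    intro hp
    rcases p with _ | p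
    · exact h0.mono (Nat.mul_le_mul_right _ (by omega))
    have h1 : ∀ a ≤ p, Hit G ℓ J ((Z - J) * (Z * Λ)) (y a) := fun a ha => ih a (by omega) (by omega)
    have h2 := stretch hh hρ y y' p h1 (fun a ha => hd a (by omega)) (fun a ha => hl a (by omega))
      fun a ha b hb => hne a (by omega) b (by omega)
    have h3 := grow (fun a => obj G ℓ Z Λ J (y a))
      (fun x k => (x.2 : ℕ) < rad G ℓ J (y 0) / Λ + k) p (fun x k hx => by omega)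
      (by simp only [obj_val hΛ (h1 0 (Nat.zero_le _))]; omega) (fun a ha k hk => by
        simp only [obj_val hΛ (h1 a ha.le), obj_val hΛ (h1 (a + 1) ha)] at hk ⊢
        have e1 := ((h1 a ha.le).hit_rad.step (hl a (by omega)).1 (hy (a + 1) (by omega))).rad_le
        have e2 := Nat.div_le_div_right (c := Λ) e1
        rw [Nat.add_div_left _ hΛ] at e2
        omega) p le_rfl p le_rfl
    simp only [obj_val hΛ (h1 p le_rfl)] at h3
    have h4 : rad G ℓ J (y 0) / Λ ≤ (Z - (J + 1)) * Z :=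
      Nat.div_le_of_le_mul (h0.rad_le.trans (le_of_eq (by ring)))
    refine ((h1 p le_rfl).hit_rad.step (hl p (by omega)).1 (hy (p + 1) hp)).mono ?_
    have h5 := Nat.lt_mul_div_succ (rad G ℓ J (y p)) hΛ
    have h6 : rad G ℓ J (y p) / Λ + 2 ≤ (Z - (J + 1) + 1) * Z := by
      rw [add_mul, one_mul]
      omega
    rw [show Z - (J + 1) + 1 = Z - J by omega] at h6
    calc Λ + rad G ℓ J (y p) ≤ Λ * (rad G ℓ J (y p) / Λ + 2) := by
          rw [mul_add] at h5 ⊢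
          omega
      _ ≤ Λ * ((Z - J) * Z) := Nat.mul_le_mul_left _ h6
      _ = _ := by ring

theorem one_ctx [Fintype V] [DecidableEq V] {Z Λ θ θ' ρ Y : ℕ} {β : Type}
    {h : V × Fin (Z * Z + 1) → β} (hh : Hash G ℓ ρ Z h) (hΛ : 0 < Λ) (hℓ : ∀ v, ℓ v < Z)
    (hT : ∀ v j, ℓ v < j → {x | j + 1 ≤ ℓ x ∧ Near G ℓ j ρ v x}.ncard ≤ 4)
    (hρ : 2 * (Y + Z * (Z * Λ)) + Λ ≤ ρ) {u u' : V} (hu : ¬ Near G ℓ θ ρ u u')
    (y y' : ℕ → V) (N : ℕ) (h0 : Near G ℓ θ Λ u (y 0))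
    (hy : ∀ p ≤ N, θ' ≤ ℓ (y p) ∧ ℓ (y p) < θ ∧ ℓ (y' p) < θ)
    (hd : ∀ p ≤ N, ∀ j, InR G ℓ Z Λ θ j (y p) → {i | j < i ∧ InR G ℓ Z Λ θ i (y p)}.ncard ≤ 5 →
      InR G ℓ Z Λ θ j (y' p) ∧ h (obj G ℓ Z Λ j (y p)) = h (obj G ℓ Z Λ j (y' p)))
    (hl : ∀ p < N, Near G ℓ θ' Λ (y p) (y (p + 1)) ∧ Near G ℓ θ' Λ (y' p) (y' (p + 1)))
    (hn : ∀ p ≤ N, Near G ℓ θ Y u (y p) ∧ Near G ℓ θ Y u' (y' p)) :
    Near G ℓ θ (Z * (2 * (Z * (Z * Λ)) + Λ) + Z * (Z * Λ)) u (y N) := by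
  classical
  obtain ⟨J, hJ, hmax⟩ := ((Finset.range θ).filter fun j =>
      ∃ p ≤ N, Hit G ℓ j ((Z - (j + 1)) * (Z * Λ)) (y p)).exists_max_image id
    ⟨ℓ (y 0), Finset.mem_filter.2 ⟨Finset.mem_range.2 (hy 0 (Nat.zero_le _)).2.1, 0, Nat.zero_le _,
      Hit.self _ _⟩⟩
  obtain ⟨hJθ, p₀, hp₀, hdeep⟩ := Finset.mem_filter.1 hJ
  replace hJθ := Finset.mem_range.1 hJθ
  have hmax' : ∀ j, j < θ → ∀ p ≤ N, Hit G ℓ j ((Z - (j + 1)) * (Z * Λ)) (y p) → j ≤ J :=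
    fun j hj p hp hH => hmax j (Finset.mem_filter.2 ⟨Finset.mem_range.2 hj, p, hp, hH⟩)
  have hle : ∀ p ≤ N, ℓ (y p) ≤ J := fun p hp => hmax' _ (hy p hp).2.1 p hp (Hit.self _ _)
  have hθ' : θ' ≤ J := (hy 0 (Nat.zero_le _)).1.trans (hle 0 (Nat.zero_le _))
  have hJZ : J < Z := hdeep.anc_spec.1 ▸ hℓ _
  have hσ := sig_le Z Λ J
  have hd' : ∀ p ≤ N, Hit G ℓ J ((Z - J) * (Z * Λ)) (y p) → Hit G ℓ J ((Z - J) * (Z * Λ)) (y' p) ∧
      h (obj G ℓ Z Λ J (y p)) = h (obj G ℓ Z Λ J (y' p)) := fun p hp hH => by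
    have := hd p hp J ⟨hJθ, hH⟩ (rank_le hT (by omega) (hle p hp) fun j a1 a2 a3 => by
      have := hmax' j a2 p hp a3
      omega)
    exact ⟨this.1.2, this.2⟩
  have hl' : ∀ p < N, Near G ℓ J Λ (y p) (y (p + 1)) ∧ Near G ℓ J Λ (y' p) (y' (p + 1)) :=
    fun p hp => ⟨(hl p hp).1.mono hθ' le_rfl, (hl p hp).2.mono hθ' le_rfl⟩
  have hne : ∀ p ≤ N, ∀ q ≤ N, Hit G ℓ J ((Z - J) * (Z * Λ)) (y p) →
      Hit G ℓ J ((Z - J) * (Z * Λ)) (y' q) → anc G ℓ J (y p) ≠ anc G ℓ J (y' q) := by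
    intro p hp q hq a1 a2 e
    have b1 := (hn p hp).1.trans (a1.near.mono hJθ.le hσ) (Or.inl (hy p hp).2.1)
    have b2 := (hn q hq).2.trans (a2.near.mono hJθ.le hσ) (Or.inl (hy q hq).2.2)
    rw [← e] at b2
    exact hu ((b1.trans b2.symm (Or.inl (a1.anc_spec.1.symm ▸ hJθ))).mono le_rfl (by omega))
  have hall : ∀ p ≤ N, Hit G ℓ J ((Z - J) * (Z * Λ)) (y p) := by
    intro p hp
    rcases le_total p₀ p with hc | hc
    · have := stay hh hΛ hJZ (by omega) (fun i => y (p₀ + i)) (fun i => y' (p₀ + i)) (N - p₀) hdeep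
        (fun i hi => hle _ (by omega)) (fun i hi => hd' _ (by omega))
        (fun i hi => hl' (p₀ + i) (by omega)) (fun i hi j hj => hne _ (by omega) _ (by omega))
        (p - p₀) (by omega)
      simpa only [show p₀ + (p - p₀) = p by omega] using this
    · have := stay hh hΛ hJZ (by omega) (fun i => y (p₀ - i)) (fun i => y' (p₀ - i)) p₀ hdeep
        (fun i hi => hle _ (by omega)) (fun i hi => hd' _ (by omega))
        (fun i hi => by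
          have := hl' (p₀ - (i + 1)) (by omega)
          rw [show p₀ - (i + 1) + 1 = p₀ - i by omega] at this
          exact ⟨this.1.symm, this.2.symm⟩) (fun i hi j hj => hne _ (by omega) _ (by omega))
        (p₀ - p) (by omega)
      simpa only [show p₀ - (p₀ - p) = p by omega] using this
  have h2 := stretch hh (by omega) y y' N hall hd' hl' hne
  have h3 := grow (fun a => obj G ℓ Z Λ J (y a))
    (fun x k => Near G ℓ θ (k * (2 * (Z * (Z * Λ)) + Λ)) u x.1) N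
    (fun x k hx => hx.mono le_rfl (Nat.mul_le_mul_right _ (by omega)))
    ((h0.trans ((hall 0 (Nat.zero_le _)).near.mono hJθ.le hσ)
      (Or.inl (hy 0 (Nat.zero_le _)).2.1)).mono le_rfl (by omega)) (fun a ha k hk => by
      have e1 := ((hall a ha.le).tie (hall (a + 1) ha) (hl' a ha).1).mono hJθ.le
        (show _ ≤ 2 * (Z * (Z * Λ)) + Λ by omega)
      have e2 := Near.trans hk e1 (Or.inl ((hall a ha.le).anc_spec.1.symm ▸ hJθ))
      exact e2.mono le_rfl (le_of_eq (by ring))) N le_rfl N le_rfl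
  exact Near.trans (h3.mono le_rfl (Nat.mul_le_mul_right _ h2.le))
    ((hall N le_rfl).near.mono hJθ.le hσ).symm (Or.inl ((hall N le_rfl).anc_spec.1.symm ▸ hJθ))

end Pool.Agent.Lib.MP_e7c4c5_co.Qp
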