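import Pool.Agent.Lib.MP_e7c4c5_co.Sub.Level

/-!
Definitions for the quasi-polylogarithmic bound on the nonrepetitive chromatic number of
gap-planar graphs.
-/

set_option autoImplicit false

namespace Pool.Agent.Lib.MP_e7c4c5_co.Qp

open Pool.Agent.Lib.MP_e7c4c5_co.Sub

variable {V : Type}

/-- A walk with at most `r` steps from `a` to `b` whose interior has level below `θ`. -/
def Near (G : SimpleGraph V) (ℓ : V → ℕ) (θ r : ℕ) (a b : V) : Prop :=
  ∃ (w : ℕ → V) (m : ℕ), m ≤ r ∧ IsWalk G w m ∧ w 0 = a ∧ w m = b ∧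
    ∀ i, 0 < i → i < m → ℓ (w i) < θ

/-- Five vertices of `A` are reached from `v` by short walks inside the body `T`. -/
def Pod (G : SimpleGraph V) (r : ℕ) (A T : Finset V) (v : V) : Prop :=
  ∃ E : Finset V, E.card = 5 ∧ ∀ a ∈ E, a ∈ A ∧ ∃ (w : ℕ → V) (m : ℕ), 0 < m ∧ m ≤ r ∧
    IsWalk G w m ∧ w 0 = v ∧ w m = a ∧ ∀ i < m, w i ∈ T

/-- There are only linearly many disjoint pods. -/
def PodSparse (G : SimpleGraph V) (K : ℕ) : Prop :=
  ∀ (r : ℕ) (A C : Finset V) (T : V → Finset V), (∀ v ∈ C, Disjoint (T v) A) →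
    (∀ u ∈ C, ∀ v ∈ C, u ≠ v → Disjoint (T u) (T v)) → (∀ v ∈ C, Pod G r A (T v) v) →
    C.card ≤ 80 * (r + 1) * K * A.card

/-- `d` short walks from `v` to `X`, disjoint apart from `v`. -/
def Fan (G : SimpleGraph V) (r d : ℕ) (X : Finset V) (v : V) : Prop :=
  ∃ U : ℕ → Finset V, (∀ i < d, ∀ j < d, i ≠ j → Disjoint (U i) (U j)) ∧
    ∀ i < d, v ∉ U i ∧ (U i).card ≤ r ∧ ∃ (w : ℕ → V) (m : ℕ), 0 < m ∧ m ≤ r ∧ IsWalk G w m ∧
      w 0 = v ∧ w m ∈ X ∧ ∀ a, 0 < a → a ≤ m → w a ∈ U i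

/-- The growth factor from one level to the one below. -/
def cG (K r : ℕ) : ℕ := cA K r * (1 + (5 * r + 1) * (80 * (r + 1) * K + 1))

/-- The fan threshold. -/
def cF (K r : ℕ) : ℕ := 4 * cG K r * cA K r * (32 * (r + 1) * K * cB K r)

/-- The bound on the number of vertices reached upwards. -/
def cM (K r : ℕ) : ℕ := cF K r * (r + 1) * cB K r

end Pool.Agent.Lib.MP_e7c4c5_co.Qp
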