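import Pool.Agent.Lib.MP_e7c4c5_co.Qp.Defs

/-!
Fans: monotone in the target set, comparable with the number of reached vertices.
-/

set_option autoImplicit false

namespace Pool.Agent.Lib.MP_e7c4c5_co.Qp

open Pool.Agent.Lib.MP_e7c4c5_co.Sub

variable {V : Type}

theorem Fan.mono {G : SimpleGraph V} {r d : ℕ} {X X' : Finset V} {v : V} (h : Fan G r d X v)
    (hX : X ⊆ X') : Fan G r d X' v := by
  obtain ⟨U, h1, h2⟩ := h
  refine ⟨U, h1, fun i hi => ?_⟩
  obtain ⟨a1, a2, w, m, b1, b2, b3, b4, b5, b6⟩ := h2 i hi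
  exact ⟨a1, a2, w, m, b1, b2, b3, b4, hX b5, b6⟩

theorem Fan.le_reach [Fintype V] {G : SimpleGraph V} {r d : ℕ} {X : Finset V} {v : V}
    (h : Fan G r d X v) : d ≤ {x | Reach G r (X : Set V) v x}.ncard := by
  classical
  obtain ⟨U, h1, h2⟩ := h
  have key : ∀ i, ∃ x, i < d → x ∈ U i ∧ Reach G r (X : Set V) v x := fun i => by
    by_cases hi : i < d
    · obtain ⟨a1, -, w, m, b1, b2, b3, b4, b5, b6⟩ := h2 i hi
      have ex : ∃ a, 0 < a ∧ w a ∈ X := ⟨m, b1, b5⟩
      have c1 := Nat.find_spec ex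
      have c2 : Nat.find ex ≤ m := Nat.find_min' ex ⟨b1, b5⟩
      have c3 := b6 _ c1.1 c2
      exact ⟨w (Nat.find ex), fun _ => ⟨c3, c1.2, fun e => a1 (e ▸ c3), w, _, c2.trans b2,
        fun j hj => b3 j (by omega), b4, rfl, fun j j1 j2 j3 => Nat.find_min ex j2 ⟨j1, j3⟩⟩⟩
    · exact ⟨v, fun e => absurd e hi⟩
  choose x hx using key
  have := Set.ncard_le_ncard_of_injOn (s := (Finset.range d : Set ℕ))
    (t := {x | Reach G r (X : Set V) v x}) x (fun i hi => (hx i (by simpa using hi)).2)
    (fun i hi j hj e => by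
      have hi' : i < d := by simpa using hi
      have hj' : j < d := by simpa using hj
      by_contra hne
      exact Finset.disjoint_left.1 (h1 i hi' j hj' hne) (hx i hi').1 (e ▸ (hx j hj').1))
  rwa [Set.ncard_coe_finset, Finset.card_range] at this

theorem fan_aux_walk {G : SimpleGraph V} {r : ℕ} {X : Finset V} {v x : V} (hv : v ∈ X)
    (h : Reach G r (X : Set V) v x) : ∃ U : Finset V, v ∉ U ∧ U.card ≤ r ∧
      (∀ z ∈ U, z = x ∨ z ∉ X ∧ Reach G r (X : Set V) z x) ∧ ∃ (w : ℕ → V) (m : ℕ), 0 < m ∧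
      m ≤ r ∧ IsWalk G w m ∧ w 0 = v ∧ w m ∈ X ∧ ∀ a, 0 < a → a ≤ m → w a ∈ U := by
  classical
  obtain ⟨a1, a2, w, m, b1, b2, b3, b4, b5⟩ := h
  have m0 : 0 < m := Nat.pos_of_ne_zero fun e => a2 (by rw [← b4, e, b3])
  have key : ∀ z ∈ (Finset.Ioc 0 m).image w, z = x ∨ z ∉ X ∧ Reach G r (X : Set V) z x := by
    intro z hz
    obtain ⟨a, ha, rfl⟩ := Finset.mem_image.1 hz
    rw [Finset.mem_Ioc] at ha
    rcases ha.2.lt_or_eq with e | e
    · have c := b5 a ha.1 e
      refine Or.inr ⟨c, a1, fun e' => c (e' ▸ a1), fun j => w (a + j), m - a, by omega,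
        fun j hj => b2 (a + j) (by omega), rfl, ?_, fun j j1 j2 => b5 _ (by omega) (by omega)⟩
      rw [← b4]
      exact congrArg w (by omega)
    · exact Or.inl (e ▸ b4)
  refine ⟨(Finset.Ioc 0 m).image w, fun e => ?_, Finset.card_image_le.trans (by simpa using b1),
    key, w, m, m0, b1, b2, b3, b4 ▸ a1,
    fun a c1 c2 => Finset.mem_image_of_mem _ (Finset.mem_Ioc.2 ⟨c1, c2⟩)⟩
  exact (key v e).elim (fun e' => a2 e'.symm) fun e' => e'.1 hv

theorem fan_of_reach [Fintype V] {G : SimpleGraph V} {r d B : ℕ} (hB : 1 ≤ B) {X : Finset V}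
    (hX : ∀ z, z ∉ X → {x | Reach G r (X : Set V) z x}.ncard ≤ B) {v : V} (hv : v ∈ X)
    (h : d * (r + 1) * B < {x | Reach G r (X : Set V) v x}.ncard) : Fan G r d X v := by
  classical
  induction d with
  | zero => exact ⟨fun _ => ∅, fun i hi => absurd hi (by omega), fun i hi => absurd hi (by omega)⟩
  | succ d ih =>
    obtain ⟨U, h1, h2⟩ := ih (lt_of_le_of_lt (by gcongr; omega) h)
    let S := (Finset.range d).biUnion U
    let P : V → Finset V := fun z =>
      if z ∈ X then {z} else Finset.univ.filter fun x => Reach G r (X : Set V) z x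
    have hP : ∀ z, (P z).card ≤ B := fun z => by
      by_cases hz : z ∈ X
      · simpa [P, hz] using hB
      · have := hX z hz
        rw [← Set.ncard_coe_finset]
        simpa [P, hz] using this
    have hS : S.card ≤ d * r := by
      have := Finset.card_biUnion_le_card_mul (Finset.range d) U r
        fun i hi => (h2 i (Finset.mem_range.1 hi)).2.1
      rwa [Finset.card_range] at this
    have hc : (S.biUnion P).card < (Finset.univ.filter fun x => Reach G r (X : Set V) v x).card := by
      have e : (Finset.univ.filter fun x => Reach G r (X : Set V) v x).card =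
          {x | Reach G r (X : Set V) v x}.ncard := by
        rw [← Set.ncard_coe_finset]
        simp
      rw [e]
      refine lt_of_le_of_lt ((Finset.card_biUnion_le_card_mul S P B fun z _ => hP z).trans ?_) h
      exact Nat.mul_le_mul_right _ (hS.trans (Nat.mul_le_mul (by omega) (by omega)))
    obtain ⟨x, hx, hx'⟩ := Finset.exists_mem_notMem_of_card_lt_card hc
    have hr := (Finset.mem_filter.1 hx).2
    obtain ⟨T, t1, t2, t3, t4⟩ := fan_aux_walk hv hr
    have dj : ∀ i < d, Disjoint (U i) T := fun i hi => Finset.disjoint_left.2 fun z z1 z2 => by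
      refine hx' (Finset.mem_biUnion.2 ⟨z, Finset.mem_biUnion.2 ⟨i, Finset.mem_range.2 hi, z1⟩, ?_⟩)
      rcases t3 z z2 with rfl | e
      · have : z ∈ X := hr.1
        simp [P, this]
      · simpa [P, e.1] using e.2
    refine ⟨fun i => if i < d then U i else T, fun i hi j hj hne => ?_, fun i hi => ?_⟩
    · by_cases c1 : i < d <;> by_cases c2 : j < d
      · simpa only [if_pos c1, if_pos c2] using h1 i c1 j c2 hne
      · simpa only [if_pos c1, if_neg c2] using dj i c1
      · simpa only [if_neg c1, if_pos c2] using (dj j c2).symm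
      · omega
    · by_cases c1 : i < d
      · simpa only [if_pos c1] using h2 i c1
      · simpa only [if_neg c1] using ⟨t1, t2, t4⟩

end Pool.Agent.Lib.MP_e7c4c5_co.Qp
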