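import Pool.Agent.Lib.MP_e7c4c5_co.Qp.Fan

/-!
Levels with few ties and at most four projections two levels up.
-/

set_option autoImplicit false

namespace Pool.Agent.Lib.MP_e7c4c5_co.Qp

open Pool.Agent.Lib.MP_e7c4c5_co.Sub

variable {V : Type}

/-- New seeds can be added to a state of the closure construction. -/
theorem closure_seed [DecidableEq V] {G : SimpleGraph V} {r ξ : ℕ} {Y X : Finset V} {root : V → V}
    {F : Finset (V × V)} (s : Closure_St G r ξ Y X root F) {W : Finset V} (hW : Disjoint X W) :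
    Closure_St G r ξ (Y ∪ W) (X ∪ W) (fun v => if v ∈ W then v else root v) F := by
  have r1 : ∀ v ∈ W, (if v ∈ W then v else root v) = v := fun v hv => if_pos hv
  have r2 : ∀ v ∈ X, (if v ∈ W then v else root v) = root v := fun v hv =>
    if_neg (Finset.disjoint_left.1 hW hv)
  refine ⟨Finset.union_subset_union s.sub (Finset.Subset.refl _), fun v hv => ?_, fun t => ?_,
    fun v hv => ?_, fun e he => ?_, ?_⟩
  · rcases Finset.mem_union.1 hv with hv | hv
    · rw [r2 v hv, r2 _ (s.idem v hv).1]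
      exact ⟨Finset.mem_union_left _ (s.idem v hv).1, (s.idem v hv).2⟩
    · rw [r1 v hv, r1 v hv]
      exact ⟨Finset.mem_union_right _ hv, rfl⟩
  · by_cases ht : t ∈ W
    · refine le_trans (Finset.card_le_card (t := {t}) fun v hv => ?_) (by simp)
      obtain ⟨a1, a2⟩ := Finset.mem_filter.1 hv
      rcases Finset.mem_union.1 a1 with a1 | a1
      · rw [r2 v a1] at a2
        exact (Finset.disjoint_left.1 hW (a2 ▸ (s.idem v a1).1) ht).elim
      · exact Finset.mem_singleton.2 ((r1 v a1).symm.trans a2)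
    · refine le_trans (Finset.card_le_card fun v hv => ?_) (s.fib t)
      obtain ⟨a1, a2⟩ := Finset.mem_filter.1 hv
      rcases Finset.mem_union.1 a1 with a1 | a1
      · exact Finset.mem_filter.2 ⟨a1, (r2 v a1).symm.trans a2⟩
      · exact (ht (((r1 v a1).symm.trans a2) ▸ a1)).elim
  · rcases Finset.mem_union.1 hv with hv | hv
    · obtain ⟨u, n, a1, a2, a3, a4, a5⟩ := s.path v hv
      refine ⟨u, n, a1, a2, a3, a4.trans (r2 v hv).symm, fun i hi => ?_⟩
      rw [r2 _ (a5 i hi).1, r2 v hv]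
      exact ⟨Finset.mem_union_left _ (a5 i hi).1, (a5 i hi).2⟩
    · exact ⟨fun _ => v, 0, Nat.zero_le _, fun i hi => absurd hi (Nat.not_lt_zero i), rfl,
        (r1 v hv).symm, fun _ _ => ⟨Finset.mem_union_right _ hv, rfl⟩⟩
  · obtain ⟨a1, a2, a3, u, n, b1, b2, b3, b4, b5⟩ := s.edge e he
    refine ⟨⟨Finset.mem_union_left _ a1.1, (r2 _ a1.1).trans a1.2⟩,
      ⟨Finset.mem_union_left _ a2.1, (r2 _ a2.1).trans a2.2⟩, a3, u, n, b1, b2, b3, b4,
      fun i hi => ?_⟩
    rw [r2 _ (b5 i hi).1]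
    exact ⟨Finset.mem_union_left _ (b5 i hi).1, (b5 i hi).2⟩
  · have c1 : ((X ∪ W).filter fun v => (if v ∈ W then v else root v) = v).card ≤
        (X.filter fun v => root v = v).card + W.card := by
      refine le_trans (Finset.card_le_card fun v hv => ?_) (Finset.card_union_le _ _)
      obtain ⟨a1, a2⟩ := Finset.mem_filter.1 hv
      rcases Finset.mem_union.1 a1 with a1 | a1
      · exact Finset.mem_union_left _ (Finset.mem_filter.2 ⟨a1, (r2 v a1).symm.trans a2⟩)
      · exact Finset.mem_union_right _ a1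
    have c2 : (Y ∪ W).card = Y.card + W.card :=
      Finset.card_union_of_disjoint (Finset.disjoint_of_subset_left s.sub hW)
    have c3 := s.cnt
    have c4 := Nat.mul_le_mul_left ξ c1
    rw [c2]
    rw [mul_add] at c4 ⊢
    omega

/-- `Mid` is grown by closure steps from seeds in `Hi`, in pods on `Hi`, or with a fan to `Lo`. -/
def Cert [DecidableEq V] (G : SimpleGraph V) (K r : ℕ) (Lo Mid Hi : Finset V) : Prop :=
  ∃ (Y : Finset V) (root : V → V) (F : Finset (V × V)) (C : Finset V) (T : V → Finset V),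
    Closure_St G r (64 * (2 * r + 1) * K) Y Mid root F ∧
    (∀ c ∈ C, c ∈ T c ∧ T c ⊆ Y ∧ (T c).card ≤ 5 * r + 1 ∧ Pod G r Hi (T c) c) ∧
    (∀ u ∈ C, ∀ v ∈ C, u ≠ v → Disjoint (T u) (T v)) ∧
    ∀ y ∈ Y, y ∈ Hi ∨ (∃ c ∈ C, y ∈ T c) ∨ (y ∈ Lo ∧ Fan G r (cF K r) Lo y)

section
variable [DecidableEq V] {G : SimpleGraph V} {K r : ℕ} {Lo Mid Hi : Finset V}

theorem Cert.empty (Lo Hi : Finset V) : Cert G K r Lo ∅ Hi :=
  ⟨∅, id, ∅, ∅, fun _ => ∅, Closure_init G r _ ∅, by simp, by simp, by simp⟩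

theorem Cert.mono (h : Cert G K r Lo Mid Hi) {Lo' Hi' : Finset V} (h1 : Lo ⊆ Lo')
    (h2 : Hi ⊆ Hi') : Cert G K r Lo' Mid Hi' := by
  obtain ⟨Y, root, F, C, T, s, a1, a2, a3⟩ := h
  refine ⟨Y, root, F, C, T, s, fun c hc => ?_, a2, fun y hy =>
    (a3 y hy).imp (fun h => h2 h) (Or.imp_right fun h => ⟨h1 h.1, h.2.mono h1⟩)⟩
  obtain ⟨b1, b2, b3, E, b4, b5⟩ := a1 c hc
  exact ⟨b1, b2, b3, E, b4, fun a ha => ⟨h2 (b5 a ha).1, (b5 a ha).2⟩⟩

theorem Cert.step (h : Cert G K r Lo Mid Hi) {z : V} (hz : z ∉ Mid)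
    (hb : cB K r < {x | Reach G r (Mid : Set V) z x}.ncard) :
    ∃ Mid', Mid ⊂ Mid' ∧ Cert G K r Lo Mid' Hi := by
  obtain ⟨Y, root, F, C, T, s, a⟩ := h
  obtain ⟨X', root', F', s', hlt⟩ := Closure_step s hz hb
  exact ⟨X', hlt, Y, root', F', C, T, s', a⟩

theorem Cert.seed (h : Cert G K r Lo Mid Hi) {y : V} (hy : y ∉ Mid)
    (hb : y ∈ Hi ∨ (y ∈ Lo ∧ Fan G r (cF K r) Lo y)) :
    ∃ Mid', Mid ⊂ Mid' ∧ Cert G K r Lo Mid' Hi := by
  obtain ⟨Y, root, F, C, T, s, a1, a2, a3⟩ := h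
  refine ⟨Mid ∪ {y}, ⟨Finset.subset_union_left, fun h => hy (h (by simp))⟩, Y ∪ {y}, _, F, C, T,
    closure_seed s (Finset.disjoint_singleton_right.2 hy), fun c hc => ?_, a2, fun z hz => ?_⟩
  · obtain ⟨b1, b2, b3⟩ := a1 c hc
    exact ⟨b1, b2.trans Finset.subset_union_left, b3⟩
  · rcases Finset.mem_union.1 hz with hz | hz
    · exact a3 z hz
    · rw [Finset.mem_singleton.1 hz]
      exact hb.imp_right Or.inr

theorem Cert.pod (h : Cert G K r Lo Mid Hi) {v : V} (hv : v ∉ Mid) (hsub : Hi ⊆ Mid) {E : Finset V}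
    (hE : E.card = 5) (hw : ∀ a ∈ E, a ∈ Hi ∧ ∃ (w : ℕ → V) (m : ℕ), m ≤ r ∧ IsWalk G w m ∧
      w 0 = v ∧ w m = a ∧ ∀ i, 0 < i → i < m → w i ∉ Mid) :
    ∃ Mid', Mid ⊂ Mid' ∧ Cert G K r Lo Mid' Hi := by
  obtain ⟨Y, root, F, C, T, s, a1, a2, a3⟩ := h
  have : Nonempty V := ⟨v⟩
  choose! w m b1 b2 b3 b4 b5 using fun a ha => (hw a ha).2
  set W := insert v (E.biUnion fun a => (Finset.range (m a)).image (w a)) with hW
  have hvW : v ∈ W := Finset.mem_insert_self _ _
  have hWc : W.card ≤ 5 * r + 1 := by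
    refine (Finset.card_insert_le _ _).trans (Nat.add_le_add_right ?_ 1)
    rw [← hE]
    exact Finset.card_biUnion_le_card_mul _ _ _ fun a ha =>
      Finset.card_image_le.trans ((Finset.card_range _).le.trans (b1 a ha))
  have hd : Disjoint Mid W := Finset.disjoint_left.2 fun z hz hzW => by
    rcases Finset.mem_insert.1 hzW with rfl | h1
    · exact hv hz
    · obtain ⟨a, ha, h2⟩ := Finset.mem_biUnion.1 h1
      obtain ⟨i, hi, rfl⟩ := Finset.mem_image.1 h2
      rcases Nat.eq_zero_or_pos i with rfl | h0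
      · exact hv (b3 a ha ▸ hz)
      · exact b5 a ha i h0 (Finset.mem_range.1 hi) hz
  have hne : ∀ c ∈ C, c ≠ v := fun c hc e => hv (e ▸ s.sub ((a1 c hc).2.1 (a1 c hc).1))
  have t1 : ∀ c ∈ C, Function.update T v W c = T c := fun c hc =>
    Function.update_of_ne (hne c hc) _ _
  have t2 : Function.update T v W v = W := Function.update_self _ _ _
  have t3 : ∀ c ∈ C, Disjoint (T c) W := fun c hc =>
    Finset.disjoint_of_subset_left ((a1 c hc).2.1.trans s.sub) hd
  refine ⟨Mid ∪ W, ⟨Finset.subset_union_left, fun h => hv (h (Finset.mem_union_right _ hvW))⟩,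
    Y ∪ W, _, F, insert v C, Function.update T v W, closure_seed s hd, fun c hc => ?_,
    fun c hc c' hc' hcc => ?_, fun z hz => ?_⟩
  · rcases Finset.mem_insert.1 hc with hc | hc
    · rw [hc, t2]
      refine ⟨hvW, Finset.subset_union_right, hWc, E, hE, fun a ha => ⟨(hw a ha).1, w a, m a,
        Nat.pos_of_ne_zero fun h0 => hv ?_, b1 a ha, b2 a ha, b3 a ha, b4 a ha, fun i hi =>
        Finset.mem_insert_of_mem (Finset.mem_biUnion.2 ⟨a, ha,
          Finset.mem_image_of_mem _ (Finset.mem_range.2 hi)⟩)⟩⟩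
      have h1 := b4 a ha
      rw [h0, b3 a ha] at h1
      exact h1 ▸ hsub (hw a ha).1
    · rw [t1 c hc]
      obtain ⟨d1, d2, d3⟩ := a1 c hc
      exact ⟨d1, d2.trans Finset.subset_union_left, d3⟩
  · rcases Finset.mem_insert.1 hc with h1 | h1 <;> rcases Finset.mem_insert.1 hc' with h2 | h2
    · exact (hcc (h1.trans h2.symm)).elim
    · rw [h1, t2, t1 c' h2]
      exact (t3 c' h2).symm
    · rw [h2, t2, t1 c h1]
      exact t3 c h1
    · rw [t1 c h1, t1 c' h2]
      exact a2 c h1 c' h2 hcc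
  · rcases Finset.mem_union.1 hz with hz | hz
    · refine (a3 z hz).imp_right (Or.imp_left ?_)
      rintro ⟨c, hc, h1⟩
      exact ⟨c, Finset.mem_insert_of_mem hc, (t1 c hc).symm ▸ h1⟩
    · exact Or.inr (Or.inl ⟨v, Finset.mem_insert_self _ _, t2.symm ▸ hz⟩)

theorem Cert.size [Fintype V] (hK : 1 ≤ K) (h : Sparse G K) (hP : PodSparse G K)
    (hc : Cert G K r Lo Mid Hi) (hLo : Closed G K r Lo) :
    4 * cG K r * Mid.card ≤ 4 * cG K r * (cG K r * Hi.card) + Lo.card := by
  classical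
  obtain ⟨Y, root, F, C, T, s, a1, a2, a3⟩ := hc
  have h1 : Mid.card ≤ cA K r * Y.card := Closure_size hK h s
  set H := Lo.filter fun y => Fan G r (cF K r) Lo y with hH
  have h2 : Y.card ≤ Hi.card + (C.card * (5 * r + 1) + H.card) := by
    calc Y.card ≤ (Hi ∪ (C.biUnion T ∪ H)).card := Finset.card_le_card fun y hy => by
          rcases a3 y hy with b | b | b
          · exact Finset.mem_union_left _ b
          · exact Finset.mem_union_right _ (Finset.mem_union_left _ (Finset.mem_biUnion.2 b))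
          · exact Finset.mem_union_right _ (Finset.mem_union_right _ (Finset.mem_filter.2 b))
      _ ≤ _ := (Finset.card_union_le _ _).trans (Nat.add_le_add_left
          ((Finset.card_union_le _ _).trans (Nat.add_le_add_right
            (Finset.card_biUnion_le_card_mul _ _ _ fun c hc => (a1 c hc).2.2.1) _)) _)
  have h3 : (C.filter fun c => Disjoint (T c) Hi).card ≤ 80 * (r + 1) * K * Hi.card :=
    hP r Hi _ T (fun c hc => (Finset.mem_filter.1 hc).2)
      (fun u hu v hv => a2 u (Finset.mem_filter.1 hu).1 v (Finset.mem_filter.1 hv).1)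
      fun c hc => (a1 c (Finset.mem_filter.1 hc).1).2.2.2
  have h4 : (C.filter fun c => ¬ Disjoint (T c) Hi).card ≤ Hi.card := by
    have : ∀ c, ∃ z, ¬ Disjoint (T c) Hi → z ∈ T c ∧ z ∈ Hi := fun c => by
      by_cases hd : Disjoint (T c) Hi
      · exact ⟨c, fun h => (h hd).elim⟩
      · obtain ⟨z, hz⟩ := Finset.not_disjoint_iff.1 hd
        exact ⟨z, fun _ => hz⟩
    choose g hg using this
    refine Finset.card_le_card_of_injOn g (fun c hc => (hg c (Finset.mem_filter.1 hc).2).2) ?_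
    intro u hu v hv e
    obtain ⟨b1, b2⟩ := Finset.mem_filter.1 hu
    obtain ⟨b3, b4⟩ := Finset.mem_filter.1 hv
    by_contra hne
    exact Finset.disjoint_left.1 (a2 u b1 v b3 hne) (hg u b2).1 (e ▸ (hg v b4).1)
  have h5 : C.card ≤ (80 * (r + 1) * K + 1) * Hi.card := by
    rw [← Finset.card_filter_add_card_filter_not (s := C) fun c => Disjoint (T c) Hi, add_mul,
      one_mul]
    exact Nat.add_le_add h3 h4
  have h6 : H.card * cF K r ≤ 32 * (r + 1) * K * cB K r * Lo.card := by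
    refine le_trans ?_ (pairs_le hK h r Lo hLo)
    calc H.card * cF K r = ∑ _v ∈ H, cF K r := by simp
      _ ≤ ∑ v ∈ H, {x | Reach G r (Lo : Set V) v x}.ncard :=
        Finset.sum_le_sum fun v hv => (Finset.mem_filter.1 hv).2.le_reach
      _ ≤ _ := Finset.sum_le_sum_of_subset (Finset.filter_subset _ _)
  have h7 : 0 < 32 * (r + 1) * K * cB K r := by
    have := cB_pos hK r
    positivity
  have h8 : 4 * cG K r * (cA K r * H.card) ≤ Lo.card := by
    refine Nat.le_of_mul_le_mul_left ?_ h7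
    calc _ = H.card * cF K r := by unfold cF; ring
      _ ≤ _ := h6
  have h9 : Mid.card ≤ cG K r * Hi.card + cA K r * H.card := by
    calc Mid.card ≤ cA K r * (Hi.card +
          ((80 * (r + 1) * K + 1) * Hi.card * (5 * r + 1) + H.card)) := by
          refine h1.trans (Nat.mul_le_mul_left _ (h2.trans ?_))
          gcongr
      _ = _ := by unfold cG; ring
  calc _ ≤ 4 * cG K r * (cG K r * Hi.card + cA K r * H.card) := Nat.mul_le_mul_left _ h9
    _ ≤ _ := by rw [mul_add]; exact Nat.add_le_add_left h8 _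

end

theorem cG_pos (K r : ℕ) : 1 ≤ cG K r := by
  unfold cG cA
  exact Nat.succ_le_of_lt (by positivity)

/-- A family of sets that cannot be enlarged at any index. -/
theorem exists_state [Fintype V] [DecidableEq V] (G : SimpleGraph V) (K r L : ℕ) :
    ∃ X : ℕ → Finset V, X 0 = Finset.univ ∧ (∀ j, L < j → X j = ∅) ∧
      ∀ j < L, Cert G K r (X j) (X (j + 1)) (X (j + 2)) ∧
        ¬ ∃ M, X (j + 1) ⊂ M ∧ Cert G K r (X j) M (X (j + 2)) := by
  classical
  let S : (ℕ → Finset V) → Prop := fun X => X 0 = Finset.univ ∧ (∀ j, L < j → X j = ∅) ∧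
    ∀ j < L, Cert G K r (X j) (X (j + 1)) (X (j + 2))
  let μ : (ℕ → Finset V) → ℕ := fun X => ∑ j ∈ Finset.range (L + 1), (X j).card
  have hb : ∀ X, μ X ≤ (L + 1) * Fintype.card V := fun X => by
    have := Finset.sum_le_card_nsmul (Finset.range (L + 1)) (fun j => (X j).card) _
      fun j _ => Finset.card_le_univ (X j)
    simpa using this
  have hfin : {n | ∃ X, S X ∧ μ X = n}.Finite :=
    (Set.finite_Iic ((L + 1) * Fintype.card V)).subset fun n ⟨X, _, e⟩ => e ▸ hb X
  obtain ⟨n, ⟨X, hX, rfl⟩, hmax⟩ := Set.exists_max_image _ id hfin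
    ⟨_, fun j => if j = 0 then Finset.univ else ∅, ⟨rfl, fun j hj => if_neg (by omega),
      fun j _ => by simpa using Cert.empty _ _⟩, rfl⟩
  refine ⟨X, hX.1, hX.2.1, fun j hj => ⟨hX.2.2 j hj, ?_⟩⟩
  rintro ⟨M, h1, h2⟩
  have u1 : ∀ i, X i ⊆ Function.update X (j + 1) M i := fun i => by
    by_cases e : i = j + 1
    · rw [e, Function.update_self]
      exact h1.1
    · rw [Function.update_of_ne e]
  have h3 := hmax _ ⟨Function.update X (j + 1) M, ⟨by rw [Function.update_of_ne (by omega), hX.1],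
    fun i hi => by rw [Function.update_of_ne (by omega), hX.2.1 i hi], fun i hi => by
      by_cases e : i = j
      · rw [e, Function.update_self]
        exact h2.mono (u1 _) (u1 _)
      · rw [Function.update_of_ne (show i + 1 ≠ j + 1 by omega)]
        exact (hX.2.2 i hi).mono (u1 _) (u1 _)⟩, rfl⟩
  refine absurd h3 (not_le.2 (Finset.sum_lt_sum (fun i _ => Finset.card_le_card (u1 i))
    ⟨j + 1, Finset.mem_range.2 (by omega), ?_⟩))
  rw [Function.update_self]
  exact Finset.card_lt_card h1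

theorem exists_levels2 [Fintype V] {G : SimpleGraph V} {K : ℕ} (hK : 1 ≤ K) (h : Sparse G K)
    (hP : PodSparse G K) (r L : ℕ) (hL : Fintype.card V < 2 ^ L) :
    ∃ ℓ : V → ℕ, (∀ v, ℓ v < L) ∧
      (∀ v, {x | Reach G r {u | ℓ v ≤ ℓ u} v x}.ncard ≤ cM K r) ∧
      ∀ v j, ℓ v < j → {x | j + 1 ≤ ℓ x ∧ Near G ℓ j r v x}.ncard ≤ 4 := by
  classical
  obtain ⟨X, h0, h1, h2⟩ := exists_state G K r L
  have hcl : ∀ j ≤ L, Closed G K r (X j) := fun j hj z hz => by
    obtain rfl | ⟨i, rfl⟩ : j = 0 ∨ ∃ i, j = i + 1 := by cases j <;> simp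
    · exact absurd (h0 ▸ Finset.mem_univ z) hz
    · exact not_lt.1 fun hb => (h2 i hj).2 ((h2 i hj).1.step hz hb)
  have hsub : ∀ j, X (j + 1) ⊆ X j := fun j y hy => by
    obtain rfl | ⟨i, rfl⟩ : j = 0 ∨ ∃ i, j = i + 1 := by cases j <;> simp
    · exact h0 ▸ Finset.mem_univ y
    · by_cases hi : i < L
      · by_contra hn
        exact (h2 i hi).2 ((h2 i hi).1.seed hn (Or.inl hy))
      · rw [h1 _ (by omega)] at hy
        exact absurd hy (Finset.notMem_empty y)
  have hanti : Antitone X := antitone_nat_of_succ_le hsub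
  have hG := cG_pos K r
  have hdown : ∀ t j, j + t = L → 2 * cG K r * (X (j + 1)).card ≤ (X j).card := by
    intro t
    induction t with
    | zero =>
      intro j hj
      rw [h1 _ (by omega)]
      simp
    | succ t ih =>
      intro j hj
      have a1 := ih (j + 1) (by omega)
      have a2 := (h2 j (by omega)).1.size hK h hP (hcl j (by omega))
      have a3 := Nat.mul_le_mul_left (2 * cG K r) a1
      have a4 : 4 * cG K r * (cG K r * (X (j + 2)).card) =
          2 * cG K r * (2 * cG K r * (X (j + 1 + 1)).card) := by ring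
      have a5 : 4 * cG K r * (X (j + 1)).card =
          2 * cG K r * (X (j + 1)).card + 2 * cG K r * (X (j + 1)).card := by ring
      omega
  have hcard : ∀ i ≤ L, 2 ^ i * (X i).card ≤ Fintype.card V := by
    intro i
    induction i with
    | zero => simpa using Finset.card_le_univ _
    | succ i ih =>
      intro hi
      have a1 := hdown (L - i) i (by omega)
      have a2 : 2 * (X (i + 1)).card ≤ (X i).card := le_trans (by nlinarith) a1
      rw [pow_succ, mul_assoc]
      exact (Nat.mul_le_mul_left _ a2).trans (ih (by omega))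
  have hempty : ∀ v, v ∉ X L := by
    intro v hv
    have h5 : 1 ≤ (X L).card := Finset.card_pos.2 ⟨v, hv⟩
    have h6 := hcard L le_rfl
    have : 2 ^ L * 1 ≤ 2 ^ L * (X L).card := Nat.mul_le_mul_left _ h5
    omega
  let ℓ : V → ℕ := fun v => Nat.findGreatest (fun i => v ∈ X i) L
  have hmem : ∀ v, v ∈ X (ℓ v) := fun v =>
    Nat.findGreatest_spec (P := fun i => v ∈ X i) (Nat.zero_le L) (h0 ▸ Finset.mem_univ v)
  have hlt : ∀ v, ℓ v < L := fun v =>
    lt_of_le_of_ne (Nat.findGreatest_le L) fun e => hempty v (e ▸ hmem v)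
  have hiff : ∀ j v, v ∈ X j ↔ j ≤ ℓ v := fun j v => by
    refine ⟨fun hv => not_lt.1 fun hj => ?_, fun hj => hanti hj (hmem v)⟩
    rcases le_or_gt j L with hjL | hjL
    · exact Nat.findGreatest_is_greatest (P := fun i => v ∈ X i) hj hjL hv
    · rw [h1 j hjL] at hv
      exact Finset.notMem_empty v hv
  refine ⟨ℓ, hlt, fun v => ?_, fun v j hj => ?_⟩
  · have e : {u | ℓ v ≤ ℓ u} = (X (ℓ v) : Set V) := Set.ext fun u => (hiff _ u).symm
    rw [e]
    refine not_lt.1 fun hb => (h2 _ (hlt v)).2 ((h2 _ (hlt v)).1.seed (y := v)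
      (fun hv => by have := (hiff _ _).1 hv; omega) (Or.inr ⟨hmem v, ?_⟩))
    exact fan_of_reach (cB_pos hK r) (hcl _ (hlt v).le) (hmem v) hb
  · refine not_lt.1 fun hb => ?_
    obtain ⟨i, rfl⟩ : ∃ i, j = i + 1 := ⟨j - 1, by omega⟩
    rw [Set.ncard_eq_toFinset_card'] at hb
    obtain ⟨E, hE, hEc⟩ := Finset.exists_subset_card_eq (n := 5) hb
    have hE' : ∀ a ∈ E, i + 1 + 1 ≤ ℓ a ∧ Near G ℓ (i + 1) r v a := fun a ha =>
      (Set.mem_toFinset (s := {x | i + 1 + 1 ≤ ℓ x ∧ Near G ℓ (i + 1) r v x})).1 (hE ha)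
    obtain ⟨a, ha⟩ : E.Nonempty := Finset.card_pos.1 (by omega)
    have hi : i < L := by
      have := (hE' a ha).1
      have := hlt a
      omega
    refine (h2 i hi).2 ((h2 i hi).1.pod (v := v) (fun hv => by have := (hiff _ _).1 hv; omega)
      (hsub _) hEc fun a ha => ⟨(hiff _ _).2 (hE' a ha).1, ?_⟩)
    obtain ⟨w, m, b1, b2, b3, b4, b5⟩ := (hE' a ha).2
    exact ⟨w, m, b1, b2, b3, b4, fun t t1 t2 hv => absurd ((hiff _ _).1 hv) (not_le.2 (b5 t t1 t2))⟩

end Pool.Agent.Lib.MP_e7c4c5_co.Qp
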