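import Pool.Agent.Lib.MP_e7c4c5_co.Qp.Top
import Pool.Agent.Lib.MP_e7c4c5_co.Qp.Levels

/-!
The quasi-polylogarithmic bound for graphs with the two sparsity properties.
-/

set_option autoImplicit false

namespace Pool.Agent.Lib.MP_e7c4c5_co.Qp

open Pool.Agent.Lib.MP_e7c4c5_co.Sub

variable {V : Type}

theorem cM_le {K r y : ℕ} (hK : 1 ≤ K) (hy : 512 ≤ y) (hr : r ≤ y) : cM K r ≤ (y * K) ^ 29 := by
  have p1 : 1 ≤ y * K := Nat.succ_le_of_lt (by positivity)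
  have p2 : 1 ≤ y ^ 3 * K := Nat.succ_le_of_lt (by positivity)
  have p3 : 1 ≤ y ^ 2 * K := Nat.succ_le_of_lt (by positivity)
  have h0 : 64 * (2 * r + 1) * K ≤ y ^ 2 * K := by
    calc _ ≤ y * y * K := by
          refine Nat.mul_le_mul_right _ ?_
          calc 64 * (2 * r + 1) ≤ 192 * y := by omega
            _ ≤ y * y := Nat.mul_le_mul_right _ (by omega)
      _ = _ := by ring
  have h1 : 64 * (2 * r + 1) * K * r + 1 ≤ 2 * (y ^ 3 * K) := by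
    calc _ ≤ y ^ 2 * K * y + y ^ 3 * K := by gcongr
      _ = _ := by ring
  have hA : cA K r ≤ y ^ 4 * K := by
    unfold cA
    calc _ ≤ 2 * (2 * (y ^ 3 * K)) := by gcongr
      _ = 4 * (y ^ 3 * K) := by ring
      _ ≤ y * (y ^ 3 * K) := Nat.mul_le_mul_right _ (by omega)
      _ = _ := by ring
  have hB : cB K r ≤ y ^ 6 * K ^ 2 := by
    unfold cB
    calc _ ≤ y ^ 2 * K * (2 * (y ^ 3 * K)) := by gcongr
      _ ≤ y ^ 2 * K * (y * (y ^ 3 * K)) := by gcongr; omega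
      _ = _ := by ring
  have h2 : 80 * (r + 1) * K + 1 ≤ 161 * (y * K) := by
    calc _ ≤ 80 * (2 * y) * K + y * K := by gcongr; omega
      _ = _ := by ring
  have h3 : 1 + (5 * r + 1) * (80 * (r + 1) * K + 1) ≤ y ^ 4 * K := by
    calc _ ≤ y ^ 2 * K + (6 * y) * (161 * (y * K)) := by gcongr; omega
      _ = 967 * (y ^ 2 * K) := by ring
      _ ≤ (y * y) * (y ^ 2 * K) := Nat.mul_le_mul_right _ (by nlinarith)
      _ = _ := by ring
  have h4 : 32 * (r + 1) * K * cB K r ≤ y ^ 8 * K ^ 3 := by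
    calc _ ≤ 32 * (2 * y) * K * (y ^ 6 * K ^ 2) := by gcongr; omega
      _ = 64 * (y ^ 7 * K ^ 3) := by ring
      _ ≤ y * (y ^ 7 * K ^ 3) := Nat.mul_le_mul_right _ (by omega)
      _ = _ := by ring
  unfold cM cF cG
  calc _ ≤ 4 * (y ^ 4 * K * (y ^ 4 * K)) * (y ^ 4 * K) * (y ^ 8 * K ^ 3) * (2 * y) *
        (y ^ 6 * K ^ 2) := by gcongr; omega
    _ = 8 * (y ^ 27 * K ^ 8) := by ring
    _ ≤ (y * y) * (y ^ 27 * K ^ 29) := by
      gcongr
      · nlinarith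
      · norm_num
    _ = _ := by ring

theorem count_le {Z N D : ℕ} (hD : 1 ≤ D) (hZ : Z ≤ N) (hN : 512 ≤ N) :
    Z * (10 * (N ^ 29) ^ 4 * ((Z * (64 * (Z * ((N ^ 29 + 1) * (Z * Z + 1)) + 1) ^ 2 * Z) + 1) ^ 6) ^ D)
      ≤ N ^ (562 * D) := by
  have h0 : ∀ a x, x ≤ N ^ a → x + 1 ≤ N ^ (a + 1) := fun a x hx => by
    have : 1 ≤ N ^ a := Nat.succ_le_of_lt (by positivity)
    calc x + 1 ≤ 2 * N ^ a := by omega
      _ ≤ N * N ^ a := Nat.mul_le_mul_right _ (by omega)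
      _ = _ := by ring
  have h1 := h0 29 _ le_rfl
  have h2 := h0 2 (Z * Z) (by rw [sq]; gcongr)
  have h3 := h0 34 (Z * ((N ^ 29 + 1) * (Z * Z + 1))) (by
    calc _ ≤ N * (N ^ (29 + 1) * N ^ (2 + 1)) := by gcongr
      _ = _ := by ring)
  have h4 := h0 73 (Z * (64 * (Z * ((N ^ 29 + 1) * (Z * Z + 1)) + 1) ^ 2 * Z)) (by
    calc _ ≤ N * (N * (N ^ (34 + 1)) ^ 2 * N) := by gcongr; omega
      _ = _ := by ring)
  have h5 : N ^ 118 ≤ N ^ (118 * D) := Nat.pow_le_pow_right (by omega) (by omega)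
  calc _ ≤ N * (N * (N ^ 29) ^ 4 * ((N ^ (73 + 1)) ^ 6) ^ D) := by gcongr; omega
    _ = N ^ 118 * N ^ (444 * D) := by
      rw [pow_mul N 444 D]
      ring
    _ ≤ N ^ (118 * D) * N ^ (444 * D) := Nat.mul_le_mul_right _ h5
    _ = _ := by rw [← pow_add]; congr 1; ring

theorem main_qp [Fintype V] {G : SimpleGraph V} {K : ℕ} (hK : 1 ≤ K) (h : Sparse G K)
    (hP : PodSparse G K) :
    ∃ c : V → Fin (K ^ (5058 * (Nat.log 2 (Nat.log 2 (Fintype.card V)) + 1)) *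
        2 ^ (5058 * (Nat.log 2 (Nat.log 2 (Fintype.card V)) + 1) ^ 3)),
      ∀ (t : ℕ) (w : ℕ → V), 0 < t → (∀ j, j + 1 < 2 * t → G.Adj (w j) (w (j + 1))) →
        (∀ i < 2 * t, ∀ j < 2 * t, w i = w j → i = j) → ∃ i < t, c (w i) ≠ c (w (t + i)) := by
  set D := Nat.log 2 (Nat.log 2 (Fintype.card V)) + 1 with hD
  set Z := Nat.log 2 (Fintype.card V) + 1 with hZ
  have hn : Fintype.card V < 2 ^ Z := Nat.lt_pow_succ_log_self (by norm_num) _
  have hZD : Z ≤ 2 ^ D := Nat.lt_pow_succ_log_self (by norm_num) _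
  have hD1 : 1 ≤ D := by omega
  have hZ1 : 1 ≤ Z := by omega
  clear_value D Z
  obtain ⟨ℓ, hℓ, hR, hT⟩ := exists_levels2 hK h hP (6 * (5 * Z ^ 3) ^ D) Z hn
  have hcore := fun M q hM hR hq => core2 G Z D M q hM hZ1 hZD ℓ hℓ hR hT hq
  have hu : 2 ≤ 2 ^ D := by
    calc 2 = 2 ^ 1 := rfl
      _ ≤ 2 ^ D := Nat.pow_le_pow_right (by norm_num) hD1
  have e1 : 2 ^ (5058 * D ^ 3) = (((2 ^ D) ^ D) ^ 9) ^ (562 * D) := by
    simp only [← pow_mul]
    congr 1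
    ring
  rw [e1]
  generalize 2 ^ D = u at *
  have hs : u ≤ u ^ D := Nat.le_self_pow (by omega) _
  have h8 : 8 ≤ u ^ 3 := Nat.pow_le_pow_left hu 3
  have hr : 6 * (5 * Z ^ 3) ^ D ≤ (u ^ D) ^ 9 := by
    calc _ ≤ (u ^ D) ^ 3 * (u ^ 3 * u ^ 3) ^ D := by
          gcongr
          · exact le_trans (by omega) (Nat.pow_le_pow_left hs 3)
          · omega
      _ = _ := by
        simp only [← pow_mul, ← pow_add]
        congr 1
        ring
  have hy : 512 ≤ (u ^ D) ^ 9 := Nat.pow_le_pow_left (hu.trans hs) 9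
  have hZy : Z ≤ (u ^ D) ^ 9 := hZD.trans (hs.trans (Nat.le_self_pow (by omega) _))
  generalize (u ^ D) ^ 9 = y at *
  have hyN : y ≤ y * K := Nat.le_mul_of_pos_right _ hK
  have hM := cM_le hK hy hr
  have e2 : K ^ (5058 * D) * y ^ (562 * D) ≥ (y * K) ^ (562 * D) := by
    rw [mul_pow, mul_comm]
    exact Nat.mul_le_mul_left _ (Nat.pow_le_pow_right hK (Nat.mul_le_mul_right _ (by norm_num)))
  have hN : 512 ≤ y * K := hy.trans hyN
  have hZN : Z ≤ y * K := hZy.trans hyN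
  generalize y * K = N at *
  obtain ⟨c, hc⟩ := hcore (N ^ 29) (64 * (Z * ((N ^ 29 + 1) * (Z * Z + 1)) + 1) ^ 2 * Z)
    (by positivity) (fun v => (hR v).trans hM) (by
      have h1 : Z * Z + 1 ≤ 2 ^ Z * 2 ^ Z :=
        Nat.mul_lt_mul'' Nat.lt_two_pow_self Nat.lt_two_pow_self
      have hB : 0 < Z * ((N ^ 29 + 1) * (Z * Z + 1)) + 1 := Nat.succ_pos _
      generalize Z * ((N ^ 29 + 1) * (Z * Z + 1)) + 1 = B at hB ⊢
      calc _ < (2 ^ Z * (Z * Z + 1) * B ^ Z) ^ 2 * Z ^ Z := by gcongr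
        _ ≤ (2 ^ Z * (2 ^ Z * 2 ^ Z) * B ^ Z) ^ 2 * Z ^ Z := by gcongr
        _ = _ := by
          rw [show (64 : ℕ) = 2 ^ 6 by norm_num]
          simp only [mul_pow, ← pow_mul]
          ring)
  have hcard : Fintype.card (Fin Z × Fin (10 * (N ^ 29) ^ 4) × (Fin D → Fin 6 →
      Option (Fin Z × Fin (64 * (Z * ((N ^ 29 + 1) * (Z * Z + 1)) + 1) ^ 2 * Z)))) ≤
      Fintype.card (Fin (K ^ (5058 * D) * y ^ (562 * D))) := by
    simp only [Fintype.card_prod, Fintype.card_fin, Fintype.card_fun, Fintype.card_option]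
    exact (count_le hD1 hZN hN).trans e2
  obtain ⟨e⟩ := Function.Embedding.nonempty_of_card_le hcard
  refine ⟨fun v => e (c v), fun t w ht hw hinj => ?_⟩
  obtain ⟨i, hi, hne⟩ := hc t w ht hw hinj
  exact ⟨i, hi, fun h' => hne (e.injective h')⟩

end Pool.Agent.Lib.MP_e7c4c5_co.Qp
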