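import Pool.Agent.Lib.MP_e7c4c5_co.Qp.Defs

/-!
Short walks through low levels; radius and anchor of a vertex at a level.
-/

set_option autoImplicit false

namespace Pool.Agent.Lib.MP_e7c4c5_co.Qp

open Pool.Agent.Lib.MP_e7c4c5_co.Sub

variable {V : Type} {G : SimpleGraph V} {ℓ : V → ℕ}

theorem Near.refl (θ r : ℕ) (a : V) : Near G ℓ θ r a a :=
  ⟨fun _ => a, 0, Nat.zero_le _, fun i hi => absurd hi (Nat.not_lt_zero i), rfl, rfl,
    fun i _ hi => absurd hi (Nat.not_lt_zero i)⟩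

theorem Near.mono {θ θ' r r' : ℕ} {a b : V} (h : Near G ℓ θ r a b) (h1 : θ ≤ θ') (h2 : r ≤ r') :
    Near G ℓ θ' r' a b := by
  obtain ⟨w, m, a1, a2, a3, a4, a5⟩ := h
  exact ⟨w, m, a1.trans h2, a2, a3, a4, fun i hi hi' => (a5 i hi hi').trans_le h1⟩

theorem Near.symm {θ r : ℕ} {a b : V} (h : Near G ℓ θ r a b) : Near G ℓ θ r b a := by
  obtain ⟨w, m, a1, a2, a3, a4, a5⟩ := h
  refine ⟨fun i => w (m - i), m, a1, fun i hi => ?_, a4, by simpa using a3,
    fun i hi hi' => a5 _ (by omega) (by omega)⟩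
  have := (a2 (m - (i + 1)) (by omega)).symm
  rwa [show m - (i + 1) + 1 = m - i by omega] at this

theorem Near.adj {a b : V} (θ : ℕ) (h : G.Adj a b) : Near G ℓ θ 1 a b :=
  ⟨fun i => if i = 0 then a else b, 1, le_rfl, fun i hi => by
    obtain rfl : i = 0 := by omega
    simpa using h, by simp, by simp, fun i hi hi' => by omega⟩

theorem Near.zero {θ : ℕ} {a b : V} (h : Near G ℓ θ 0 a b) : a = b := by
  obtain ⟨w, m, a1, -, a3, a4, -⟩ := h
  obtain rfl : m = 0 := by omega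
  exact a3.symm.trans a4

theorem Near.trans {θ r r' : ℕ} {a b c : V} (h : Near G ℓ θ r a b) (h' : Near G ℓ θ r' b c)
    (hb : ℓ b < θ ∨ a = b ∨ b = c) : Near G ℓ θ (r + r') a c := by
  rcases hb with hb | rfl | rfl
  swap
  · exact h'.mono le_rfl (by omega)
  swap
  · exact h.mono le_rfl (by omega)
  obtain ⟨w, m, a1, a2, a3, a4, a5⟩ := h
  obtain ⟨u, n, b1, b2, b3, b4, b5⟩ := h'
  refine ⟨fun j => if j < m then w j else u (j - m), m + n, by omega, fun j hj => ?_, ?_, ?_,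
    fun j hj hj' => ?_⟩
  · by_cases c1 : j < m
    · by_cases c2 : j + 1 < m
      · simp only [if_pos c1, if_pos c2]
        exact a2 j c1
      · have e : j + 1 = m := by omega
        simp only [if_pos c1, if_neg c2]
        rw [e, Nat.sub_self, b3, ← a4, ← e]
        exact a2 j c1
    · simp only [if_neg c1, if_neg (show ¬ j + 1 < m by omega)]
      rw [show j + 1 - m = j - m + 1 by omega]
      exact b2 _ (by omega)
  · by_cases c1 : 0 < m
    · simp only [if_pos c1]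
      exact a3
    · have e : m = 0 := by omega
      simp only [if_neg c1]
      rw [Nat.zero_sub, b3, ← a4, e]
      exact a3
  · simp only [if_neg (show ¬ m + n < m by omega)]
    rw [Nat.add_sub_cancel_left, b4]
  · by_cases c1 : j < m
    · simp only [if_pos c1]
      exact a5 j hj c1
    · simp only [if_neg c1]
      rcases Nat.eq_zero_or_pos (j - m) with e | e
      · rw [e, b3]
        exact hb
      · exact b5 _ e (by omega)

theorem Near.reach {θ r : ℕ} {a b : V} (h : Near G ℓ θ r a b) (h1 : θ ≤ ℓ a) (h2 : ℓ a ≤ ℓ b)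
    (h3 : b ≠ a) : Reach G r {u | ℓ a ≤ ℓ u} a b := by
  obtain ⟨w, m, a1, a2, a3, a4, a5⟩ := h
  exact ⟨h2, h3, w, m, a1, a2, a3, a4, fun i hi hi' => not_le.2 ((a5 i hi hi').trans_le h1)⟩

/-- A vertex of level `j` is within `r` steps of `y` through levels below `j`. -/
def Hit (G : SimpleGraph V) (ℓ : V → ℕ) (j r : ℕ) (y : V) : Prop :=
  ℓ y ≤ j ∧ ∃ c, ℓ c = j ∧ Near G ℓ j r y c

/-- The least radius. -/
noncomputable def rad (G : SimpleGraph V) (ℓ : V → ℕ) (j : ℕ) (y : V) : ℕ :=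
  sInf {r | ∃ c, ℓ c = j ∧ Near G ℓ j r y c}

open Classical in
/-- A nearest vertex of level `j`. -/
noncomputable def anc (G : SimpleGraph V) (ℓ : V → ℕ) (j : ℕ) (y : V) : V :=
  if h : ∃ c, ℓ c = j ∧ Near G ℓ j (rad G ℓ j y) y c then h.choose else y

theorem Hit.mono {j r r' : ℕ} {y : V} (h : Hit G ℓ j r y) (hr : r ≤ r') : Hit G ℓ j r' y := by
  obtain ⟨a1, c, a2, a3⟩ := h
  exact ⟨a1, c, a2, a3.mono le_rfl hr⟩

theorem Hit.self (r : ℕ) (y : V) : Hit G ℓ (ℓ y) r y := ⟨le_rfl, y, rfl, Near.refl _ _ _⟩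

theorem Hit.rad_le {j r : ℕ} {y : V} (h : Hit G ℓ j r y) : rad G ℓ j y ≤ r :=
  Nat.sInf_le h.2

theorem Hit.anc_spec {j r : ℕ} {y : V} (h : Hit G ℓ j r y) :
    ℓ (anc G ℓ j y) = j ∧ Near G ℓ j (rad G ℓ j y) y (anc G ℓ j y) := by
  have h1 : ∃ c, ℓ c = j ∧ Near G ℓ j (rad G ℓ j y) y c :=
    Nat.sInf_mem (s := {r | ∃ c, ℓ c = j ∧ Near G ℓ j r y c}) ⟨r, h.2⟩
  unfold anc
  rw [dif_pos h1]
  exact h1.choose_spec

theorem Hit.hit_rad {j r : ℕ} {y : V} (h : Hit G ℓ j r y) : Hit G ℓ j (rad G ℓ j y) y :=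
  ⟨h.1, _, h.anc_spec⟩

theorem Hit.near {j r : ℕ} {y : V} (h : Hit G ℓ j r y) : Near G ℓ j r y (anc G ℓ j y) :=
  h.anc_spec.2.mono le_rfl h.rad_le

theorem Hit.lt_or {j r : ℕ} {y : V} (h : Hit G ℓ j r y) : ℓ y < j ∨ y = anc G ℓ j y := by
  rcases h.1.lt_or_eq with h1 | h1
  · exact Or.inl h1
  · subst h1
    exact Or.inr (Hit.self 0 y).near.zero

theorem Hit.step {j r s : ℕ} {y y' : V} (h : Hit G ℓ j r y) (h1 : Near G ℓ j s y y')
    (h2 : ℓ y' ≤ j) : Hit G ℓ j (s + r) y' :=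
  ⟨h2, _, h.anc_spec.1, h1.symm.trans h.near (h.lt_or.imp_right Or.inr)⟩

theorem Hit.tie {j r s : ℕ} {y y' : V} (h : Hit G ℓ j r y) (h' : Hit G ℓ j r y')
    (h1 : Near G ℓ j s y y') : Near G ℓ j (2 * r + s) (anc G ℓ j y) (anc G ℓ j y') := by
  have h2 := h1.trans h'.near (h'.lt_or.imp_right Or.inr)
  have h3 := h.near.symm.trans h2 (h.lt_or.imp_right fun e => Or.inl e.symm)
  exact h3.mono le_rfl (by omega)

end Pool.Agent.Lib.MP_e7c4c5_co.Qp
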