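import Pool.Agent.Lib.MP_e7c4c5_co.Qp.Defs
import Pool.Agent.Lib.MP_e7c4c5_co.Sub.Sample

/-!
Gap-planar drawings have linearly many disjoint pods.
-/

set_option autoImplicit false

namespace Pool.Agent.Lib.MP_e7c4c5_co.Qp

open Pool.Agent.Lib.MP_e7c4c5_co.Sub Pool.Agent.Lib.Common.Pl

variable {V : Type}

/-- The combinatorial content of a gap-planar drawing, with both ends of a charged edge. -/
theorem draw_arcs2 {k : ℕ} {G : SimpleGraph V} (h : GapDrawing k G) :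
    ∃ (p : V → ℝ × ℝ) (arc : V → V → Set (ℝ × ℝ)) (D : V → V → Finset V),
      Function.Injective p ∧ (∀ u v, G.Adj u v → (D u v).card ≤ 2 * k) ∧
      (∀ u v, G.Adj u v → JoinedIn (arc u v) (p u) (p v)) ∧
      (∀ u v z, G.Adj u v → p z ∈ arc u v → z = u ∨ z = v) ∧
      ∀ a b c d q, G.Adj a b → G.Adj c d → q ∈ arc a b → q ∈ arc c d →
        (∃ z, (z = c ∨ z = d) ∧ (z = a ∨ z = b)) ∨ c ∈ D a b ∨ a ∈ D c d := by
  classical
  obtain ⟨p, γ, A, hp, hγ, hA, hX⟩ := h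
  have hD : ∀ u v, ∃ s : Finset V, G.Adj u v → s.card ≤ 2 * k ∧
      ∀ q c d, (q, s(c, d)) ∈ A s(u, v) → c ∈ s := by
    intro u v
    by_cases h : G.Adj u v
    · refine ⟨(hA u v h).1.toFinset.biUnion fun q => q.2.toFinset, fun _ => ⟨?_,
        fun q c d hq => ?_⟩⟩
      · refine (Finset.card_biUnion_le_card_mul _ _ 2 fun q _ => ?_).trans ?_
        · rw [Sym2.card_toFinset]
          split_ifs <;> norm_num
        rw [mul_comm]
        exact Nat.mul_le_mul_left _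
          ((Set.ncard_eq_toFinset_card _ (hA u v h).1).symm.trans_le (hA u v h).2)
      · refine Finset.mem_biUnion.2 ⟨_, (hA u v h).1.mem_toFinset.2 hq, ?_⟩
        simp
    · exact ⟨∅, fun h' => absurd h' h⟩
  choose D hD using hD
  have hend : ∀ u v, G.Adj u v → ∀ t ∈ Set.Icc (0:ℝ) 1,
      t ∈ Set.Ioo (0:ℝ) 1 ∨ ∃ z, (z = u ∨ z = v) ∧ γ u v t = p z := by
    intro u v h t ht
    rcases ht.1.eq_or_lt with rfl | h0
    · exact Or.inr ⟨u, Or.inl rfl, (hγ u v h).2.2.1⟩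
    rcases ht.2.eq_or_lt with rfl | h1
    · exact Or.inr ⟨v, Or.inr rfl, (hγ u v h).2.2.2.1⟩
    · exact Or.inl ⟨h0, h1⟩
  have hv : ∀ u v z, G.Adj u v → p z ∈ γ u v '' Set.Icc 0 1 → z = u ∨ z = v := by
    rintro u v z h ⟨t, ht, hz⟩
    rcases hend u v h t ht with h' | ⟨z', h1, h2⟩
    · exact absurd hz ((hγ u v h).2.2.2.2.2 t h' z)
    · rwa [hp (hz.symm.trans h2)]
  refine ⟨p, fun u v => γ u v '' Set.Icc 0 1, D, hp, fun u v h => (hD u v h).1, fun u v h => ?_,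
    hv, ?_⟩
  · exact (((convex_Icc (0:ℝ) 1).isPathConnected ⟨0, by simp⟩).image' (hγ u v h).1).joinedIn _
      ⟨0, by simp, (hγ u v h).2.2.1⟩ _ ⟨1, by simp, (hγ u v h).2.2.2.1⟩
  · rintro a b c d _ hab hcd ⟨t, ht, rfl⟩ ⟨t', ht', h⟩
    rcases hend a b hab t ht with h1 | ⟨z, h1, h2⟩
    swap
    · exact Or.inl ⟨z, hv c d z hcd ⟨t', ht', h.trans h2⟩, h1⟩
    rcases hend c d hcd t' ht' with h2 | ⟨z, h2, h3⟩
    swap
    · exact Or.inl ⟨z, h2, hv a b z hab ⟨t, ht, h.symm.trans h3⟩⟩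
    by_cases he : s(a, b) = s(c, d)
    · exact Or.inl ⟨a, Sym2.mem_iff.1 (he ▸ Sym2.mem_mk_left a b), Or.inl rfl⟩
    rcases hX a b c d hab hcd he t h1 t' h2 h.symm with h3 | h3
    · exact Or.inr (Or.inl ((hD a b hab).2 _ _ _ h3))
    · exact Or.inr (Or.inr ((hD c d hcd).2 _ _ _ h3))

/-- A digraph of out-degree at most `δ` has a large independent set. -/
theorem exists_indep [DecidableEq V] (δ : ℕ) (U : V → Finset V) (S : Finset V)
    (hU : ∀ v ∈ S, (U v).card ≤ δ) :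
    ∃ I ⊆ S, S.card ≤ (2 * δ + 1) * I.card ∧ ∀ a ∈ I, ∀ b ∈ I, b ∈ U a → b = a := by
  induction S using Finset.strongInduction with
  | H S ih =>
    rcases S.eq_empty_or_nonempty with rfl | hne
    · exact ⟨∅, Finset.Subset.refl _, by simp, by simp⟩
    have h1 : ∑ v ∈ S, (S.filter fun a => v ∈ U a).card ≤ ∑ _v ∈ S, δ := by
      calc ∑ v ∈ S, (S.filter fun a => v ∈ U a).card
          = ∑ a ∈ S, (S.filter fun v => v ∈ U a).card := by
            simp only [Finset.card_filter]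
            exact Finset.sum_comm
        _ ≤ _ := Finset.sum_le_sum fun a ha =>
            (Finset.card_le_card fun v hv => (Finset.mem_filter.1 hv).2).trans (hU a ha)
    obtain ⟨v, hv, hvd⟩ := Finset.exists_le_of_sum_le hne h1
    set B := insert v (U v ∪ S.filter fun a => v ∈ U a) with hB
    have hBc : B.card ≤ 2 * δ + 1 := by
      have := Finset.card_insert_le v (U v ∪ S.filter fun a => v ∈ U a)
      have := Finset.card_union_le (U v) (S.filter fun a => v ∈ U a)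
      have := hU v hv
      rw [hB]
      omega
    have hvB : v ∈ B := Finset.mem_insert_self _ _
    obtain ⟨I, hI, hc, hi⟩ := ih (S \ B) ⟨Finset.sdiff_subset,
      fun h => (Finset.mem_sdiff.1 (h hv)).2 hvB⟩ fun a ha => hU a (Finset.mem_sdiff.1 ha).1
    have hvI : v ∉ I := fun h => (Finset.mem_sdiff.1 (hI h)).2 hvB
    refine ⟨insert v I, Finset.insert_subset hv (hI.trans Finset.sdiff_subset), ?_, ?_⟩
    · rw [Finset.card_insert_of_notMem hvI, mul_add, mul_one]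
      have := Finset.le_card_sdiff B S
      omega
    · intro a ha b hb hab
      rcases Finset.mem_insert.1 ha with ha' | ha' <;> rcases Finset.mem_insert.1 hb with hb' | hb'
      · exact hb'.trans ha'.symm
      · exact ((Finset.mem_sdiff.1 (hI hb')).2
          (Finset.mem_insert_of_mem (Finset.mem_union_left _ (ha' ▸ hab)))).elim
      · exact ((Finset.mem_sdiff.1 (hI ha')).2 (Finset.mem_insert_of_mem (Finset.mem_union_right _
          (Finset.mem_filter.2 ⟨(Finset.mem_sdiff.1 (hI ha')).1, hb' ▸ hab⟩)))).elim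
      · exact hi a ha' b hb' hab

theorem podSparse_of_drawing [Fintype V] {k : ℕ} {G : SimpleGraph V} (h : GapDrawing k G) :
    PodSparse G (k + 1) := by
  classical
  intro r A C T hTA hTT hP
  obtain ⟨p, arc, D, hp, hD, hj, hv, hm⟩ := draw_arcs2 h
  rcases C.eq_empty_or_nonempty with rfl | ⟨c₀, -⟩
  · simp
  have : Nonempty V := ⟨c₀⟩
  choose! E hE5 hE using hP
  choose! w m h0m hmr hw h0 h1 hT using fun c hc a ha => (hE c hc a ha).2
  have hEA : ∀ c ∈ C, ∀ a ∈ E c, a ∈ A := fun c hc a ha => (hE c hc a ha).1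
  have hcT : ∀ c ∈ C, c ∈ T c := fun c hc => by
    obtain ⟨a, ha⟩ : (E c).Nonempty := Finset.card_pos.1 (by rw [hE5 c hc]; norm_num)
    have := hT c hc a ha 0 (h0m c hc a ha)
    rwa [h0 c hc a ha] at this
  have hCA : ∀ c ∈ C, c ∉ A := fun c hc => Finset.disjoint_left.1 (hTA c hc) (hcT c hc)
  have huniq : ∀ c ∈ C, ∀ c' ∈ C, ∀ z, z ∈ T c → z ∈ T c' → c = c' := fun c hc c' hc' z a1 a2 => by
    by_contra hne
    exact Finset.disjoint_left.1 (hTT c hc c' hc' hne) a1 a2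
  have hown : ∀ z, ∃ o, ∀ c ∈ C, z ∈ T c → o = c := fun z => by
    by_cases hz : ∃ c ∈ C, z ∈ T c
    · obtain ⟨c, hc, hz⟩ := hz
      exact ⟨c, fun c' hc' hz' => huniq c hc c' hc' z hz hz'⟩
    · exact ⟨z, fun c hc hz' => (hz ⟨c, hc, hz'⟩).elim⟩
  choose own hown using hown
  let U : V → Finset V := fun c => ((E c).biUnion fun a => (Finset.range (m c a)).biUnion fun i =>
    D (w c a i) (w c a (i + 1))).image own
  have hU : ∀ c ∈ C, (U c).card ≤ 5 * (r * (2 * k)) := fun c hc => by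
    refine Finset.card_image_le.trans ((Finset.card_biUnion_le_card_mul _ _ (r * (2 * k))
      fun a ha => ?_).trans (by rw [hE5 c hc]))
    refine (Finset.card_biUnion_le_card_mul _ _ (2 * k) fun i hi =>
      hD _ _ (hw c hc a ha i (Finset.mem_range.1 hi))).trans ?_
    rw [Finset.card_range]
    exact Nat.mul_le_mul_right _ (hmr c hc a ha)
  obtain ⟨I, hIC, hIc, hI⟩ := exists_indep _ U C hU
  let S := I ∪ A
  let P : V → V → Set (ℝ × ℝ) := fun c a => {q | ∃ i < m c a, q ∈ arc (w c a i) (w c a (i + 1))}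
  have hPj : ∀ c ∈ C, ∀ a ∈ E c, JoinedIn (P c a) (p c) (p a) := fun c hc a ha => by
    have hstep : ∀ i < m c a, JoinedIn (P c a) (p (w c a i)) (p (w c a (i + 1))) := fun i hi =>
      (hj _ _ (hw c hc a ha i hi)).mono fun q hq => ⟨i, hi, hq⟩
    have key : ∀ j ≤ m c a, JoinedIn (P c a) (p (w c a 0)) (p (w c a j)) := fun j hj => by
      induction j with
      | zero => exact JoinedIn.refl (hstep 0 (h0m c hc a ha)).source_mem
      | succ j ih => exact (ih (Nat.le_of_succ_le hj)).trans (hstep j hj)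
    simpa only [h0 c hc a ha, h1 c hc a ha] using key _ le_rfl
  have hon : ∀ c ∈ C, ∀ a ∈ E c, ∀ i < m c a, ∀ z, z = w c a i ∨ z = w c a (i + 1) →
      z ∈ T c ∨ z = a := by
    rintro c hc a ha i hi z (rfl | rfl)
    · exact Or.inl (hT c hc a ha i hi)
    · rcases Nat.lt_or_ge (i + 1) (m c a) with h2 | h2
      · exact Or.inl (hT c hc a ha _ h2)
      · exact Or.inr (by rw [show i + 1 = m c a by omega, h1 c hc a ha])
  have k1 : ∀ c ∈ I, ∀ a ∈ E c, ∀ z ∈ S, p z ∈ P c a → z = c ∨ z = a := by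
    rintro c hc a ha z hz ⟨i, hi, hq⟩
    refine (hon c (hIC hc) a ha i hi z (hv _ _ z (hw c (hIC hc) a ha i hi) hq)).imp_left fun h2 => ?_
    rcases Finset.mem_union.1 hz with hz | hz
    · exact huniq z (hIC hz) c (hIC hc) z (hcT z (hIC hz)) h2
    · exact (Finset.disjoint_left.1 (hTA c (hIC hc)) h2 hz).elim
  have k2 : ∀ c ∈ I, ∀ a ∈ E c, ∀ i < m c a, ∀ c' ∈ I, ∀ z ∈ T c',
      z ∈ D (w c a i) (w c a (i + 1)) → c' = c := fun c hc a ha i hi c' hc' z hz hzD =>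
    hI c hc c' hc' (Finset.mem_image.2 ⟨z, Finset.mem_biUnion.2 ⟨a, ha,
      Finset.mem_biUnion.2 ⟨i, Finset.mem_range.2 hi, hzD⟩⟩, hown z c' (hIC hc') hz⟩)
  have k3 : ∀ c ∈ I, ∀ a ∈ E c, ∀ c' ∈ I, ∀ a' ∈ E c', ∀ q ∈ P c a, q ∈ P c' a' →
      c = c' ∨ a = a' := by
    rintro c hc a ha c' hc' a' ha' q ⟨i, hi, hq⟩ ⟨i', hi', hq'⟩
    rcases hm _ _ _ _ q (hw c (hIC hc) a ha i hi) (hw c' (hIC hc') a' ha' i' hi') hq hq' with
      ⟨z, h2, h3⟩ | h2 | h2
    · rcases hon c (hIC hc) a ha i hi z h3 with h4 | h4 <;>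
        rcases hon c' (hIC hc') a' ha' i' hi' z h2 with h5 | h5
      · exact Or.inl (huniq c (hIC hc) c' (hIC hc') z h4 h5)
      · exact (Finset.disjoint_left.1 (hTA c (hIC hc)) h4 (h5 ▸ hEA c' (hIC hc') a' ha')).elim
      · exact (Finset.disjoint_left.1 (hTA c' (hIC hc')) h5 (h4 ▸ hEA c (hIC hc) a ha)).elim
      · exact Or.inr (h4.symm.trans h5)
    · exact Or.inl (k2 c hc a ha i hi c' hc' _ (hT c' (hIC hc') a' ha' i' hi') h2).symm
    · exact Or.inl (k2 c' hc' a' ha' i' hi' c hc _ (hT c (hIC hc) a ha i hi) h2)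
  have hVK : IsVK (SimpleGraph.fromRel fun x y : S => x.1 ∈ I ∧ y.1 ∈ E x.1) := by
    refine isVK_of_weakDrawing _ (fun x => p x.1) (hp.comp Subtype.val_injective)
      (fun x y => {q | ∃ c ∈ I, ∃ a ∈ E c, ((c = x.1 ∧ a = y.1) ∨ (c = y.1 ∧ a = x.1)) ∧ q ∈ P c a})
      (fun x y => by simp only [or_comm]) ?_ ?_ ?_
    · rintro x y ⟨-, h | h⟩
      · exact (hPj _ (hIC h.1) _ h.2).mono fun q hq => ⟨_, h.1, _, h.2, Or.inl ⟨rfl, rfl⟩, hq⟩
      · exact (hPj _ (hIC h.1) _ h.2).symm.mono fun q hq =>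
          ⟨_, h.1, _, h.2, Or.inr ⟨rfl, rfl⟩, hq⟩
    · rintro x y z - hx hy ⟨c, hc, a, ha, ⟨rfl, rfl⟩ | ⟨rfl, rfl⟩, hq⟩ <;>
        rcases k1 _ hc _ ha z.1 z.2 hq with h | h <;>
        first | exact hx (Subtype.ext h) | exact hy (Subtype.ext h)
    · intro x y u v _ _ a1 a2 a3 a4
      refine Set.disjoint_left.2 ?_
      rintro q ⟨c, hc, a, ha, h2, hq⟩ ⟨c', hc', a', ha', h3, hq'⟩
      have h5 : ∃ z, (z = x.1 ∨ z = y.1) ∧ (z = u.1 ∨ z = v.1) := by
        rcases k3 c hc a ha c' hc' a' ha' q hq hq' with h4 | h4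
        · exact ⟨c, h2.imp And.left And.left, (h3.imp And.left And.left).imp h4.trans h4.trans⟩
        · exact ⟨a, (h2.imp And.right And.right).symm,
            ((h3.imp And.right And.right).imp h4.trans h4.trans).symm⟩
      obtain ⟨z, h6 | h6, h7 | h7⟩ := h5
      · exact a1 (Subtype.ext (h7.symm.trans h6))
      · exact a3 (Subtype.ext (h7.symm.trans h6))
      · exact a2 (Subtype.ext (h7.symm.trans h6))
      · exact a4 (Subtype.ext (h7.symm.trans h6))
  let F : Finset (V × V) := I.biUnion fun c => (E c).image fun a => (c, a)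
  have hFm : ∀ e ∈ F, e.1 ∈ I ∧ e.2 ∈ E e.1 := fun e he => by
    obtain ⟨c, hc, he⟩ := Finset.mem_biUnion.1 he
    obtain ⟨a, ha, rfl⟩ := Finset.mem_image.1 he
    exact ⟨hc, ha⟩
  have hFc : F.card = 5 * I.card := by
    rw [Finset.card_biUnion, Finset.sum_congr rfl fun c hc => (Finset.card_image_of_injective _
      fun a b h => (Prod.ext_iff.1 h).2).trans (hE5 c (hIC hc)), Finset.sum_const, smul_eq_mul,
      mul_comm]
    intro c _ c' _ hne
    refine Finset.disjoint_left.2 fun e he he' => ?_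
    obtain ⟨a, -, rfl⟩ := Finset.mem_image.1 he
    obtain ⟨a', -, h2⟩ := Finset.mem_image.1 he'
    exact hne (Prod.ext_iff.1 h2).1.symm
  have hF2 : (F ∪ F.image Prod.swap).card = 10 * I.card := by
    rw [Finset.card_union_of_disjoint, Finset.card_image_of_injective _ Prod.swap_injective, hFc]
    · ring
    refine Finset.disjoint_left.2 fun e he he' => ?_
    obtain ⟨e', h2, rfl⟩ := Finset.mem_image.1 he'
    exact hCA _ (hIC (hFm _ he).1) (hEA _ (hIC (hFm _ h2).1) _ (hFm _ h2).2)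
  have h8 := planar_pairs _ hVK.planar (Finset.univ.filter fun e : S × S =>
    (SimpleGraph.fromRel fun x y : S => x.1 ∈ I ∧ y.1 ∈ E x.1).Adj e.1 e.2)
    fun e he => (Finset.mem_filter.1 he).2
  rw [Fintype.card_coe] at h8
  have h9 : (F ∪ F.image Prod.swap).card ≤ 8 * S.card := by
    refine le_trans (Finset.card_le_card_of_surjOn (fun e : S × S => (e.1.1, e.2.1)) ?_) h8
    have key : ∀ e ∈ F, e.1 ∈ S ∧ e.2 ∈ S ∧ e.1 ≠ e.2 := fun e he =>
      ⟨Finset.mem_union_left _ (hFm e he).1,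
        Finset.mem_union_right _ (hEA _ (hIC (hFm e he).1) _ (hFm e he).2),
        fun h2 => hCA _ (hIC (hFm e he).1) (h2 ▸ hEA _ (hIC (hFm e he).1) _ (hFm e he).2)⟩
    intro e he
    rcases Finset.mem_union.1 he with he | he
    · obtain ⟨a1, a2, a3⟩ := key e he
      exact ⟨(⟨e.1, a1⟩, ⟨e.2, a2⟩), Finset.mem_coe.2 (Finset.mem_filter.2 ⟨Finset.mem_univ _,
        fun h2 => a3 (congrArg Subtype.val h2), Or.inl (hFm e he)⟩), rfl⟩
    · obtain ⟨e', he', rfl⟩ := Finset.mem_image.1 he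
      obtain ⟨a1, a2, a3⟩ := key e' he'
      exact ⟨(⟨e'.2, a2⟩, ⟨e'.1, a1⟩), Finset.mem_coe.2 (Finset.mem_filter.2 ⟨Finset.mem_univ _,
        fun h2 => a3 (congrArg Subtype.val h2).symm, Or.inr (hFm e' he')⟩), rfl⟩
  have h10 : S.card ≤ I.card + A.card := Finset.card_union_le _ _
  have h11 : I.card ≤ 4 * A.card := by omega
  calc C.card ≤ (2 * (5 * (r * (2 * k))) + 1) * (4 * A.card) :=
        hIc.trans (Nat.mul_le_mul_left _ h11)
    _ = (80 * (r * k) + 4) * A.card := by ring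
    _ ≤ _ := Nat.mul_le_mul_right _ (by nlinarith [Nat.zero_le r, Nat.zero_le k])

end Pool.Agent.Lib.MP_e7c4c5_co.Qp
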