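import Mathlib

/-!
A union bound over pairs of chains that see many different objects.
-/

set_option autoImplicit false

namespace Pool.Agent.Lib.MP_e7c4c5_co.Qp

open Finset

theorem ub_grown {W : Type} [Fintype W] [DecidableEq W] (R : W → W → Prop) (M Z : ℕ)
    (hR : ∀ v, {u | R v u}.ncard ≤ M) (s : ℕ) (hs : s ≤ Z) :
    ∃ F : Finset (Finset W), F.card ≤ Fintype.card W * (Z * M + 1) ^ s ∧
      (∀ A ∈ F, A.card ≤ s + 1) ∧ ∀ (a : ℕ → W) (N : ℕ), (∀ i < N, R (a i) (a (i + 1))) →
        ((range (N + 1)).image a).card ≤ s + 1 → (range (N + 1)).image a ∈ F := by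
  classical
  induction s with
  | zero =>
    refine ⟨univ.image fun x => {x}, by simpa using card_image_le (s := (univ : Finset W)),
      fun A hA => ?_, fun a N _ h => ?_⟩
    · obtain ⟨x, -, rfl⟩ := mem_image.1 hA
      simp
    · refine mem_image.2 ⟨a 0, mem_univ _, (eq_singleton_iff_unique_mem.2 ⟨?_, ?_⟩).symm⟩
      · exact mem_image_of_mem _ (by simp)
      · exact fun x hx => card_le_one.1 h x hx _ (mem_image_of_mem _ (by simp))
  | succ s ih =>
    obtain ⟨F, h1, h2, h3⟩ := ih (by omega)
    have hM : ∀ x, (univ.filter (R x)).card ≤ M := fun x => by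
      rw [← Set.ncard_coe_finset]
      simpa using hR x
    refine ⟨F ∪ F.biUnion fun A => A.biUnion fun x => (univ.filter (R x)).image fun y => insert y A,
      ?_, fun A hA => ?_, fun a N => ?_⟩
    · have e : (F.biUnion fun A => A.biUnion fun x =>
          (univ.filter (R x)).image fun y => insert y A).card ≤ F.card * (Z * M) :=
        card_biUnion_le_card_mul _ _ _ fun A hA =>
          (card_biUnion_le_card_mul _ _ M fun x _ => card_image_le.trans (hM x)).trans
            (Nat.mul_le_mul_right _ ((h2 A hA).trans hs))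
      calc _ ≤ F.card + F.card * (Z * M) := (card_union_le _ _).trans (Nat.add_le_add_left e _)
        _ = F.card * (Z * M + 1) := by ring
        _ ≤ _ := by rw [pow_succ, ← mul_assoc]; exact Nat.mul_le_mul_right _ h1
    · rcases mem_union.1 hA with h | h
      · exact (h2 A h).trans (by omega)
      · simp only [mem_biUnion, mem_image] at h
        obtain ⟨B, hB, x, -, y, -, rfl⟩ := h
        exact (card_insert_le _ _).trans (Nat.succ_le_succ (h2 B hB))
    · induction N with
      | zero => exact fun h _ => mem_union_left _ (h3 a 0 h (by simp))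
      | succ N ihN =>
        intro h hc
        have h' : ∀ i < N, R (a i) (a (i + 1)) := fun i hi => h i (by omega)
        rw [range_add_one, image_insert] at hc ⊢
        by_cases hm : a (N + 1) ∈ (range (N + 1)).image a
        · rw [insert_eq_of_mem hm] at hc ⊢
          exact ihN h' hc
        · rw [card_insert_of_notMem hm] at hc
          refine mem_union_right _ (mem_biUnion.2 ⟨_, h3 a N h' (by omega), mem_biUnion.2
            ⟨a N, mem_image_of_mem _ (by simp), mem_image.2 ⟨a (N + 1), ?_, rfl⟩⟩⟩)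
          simpa using h N (by omega)

theorem ub_event {W : Type} [Fintype W] [DecidableEq W] (q : ℕ) (B A : Finset W)
    (hd : Disjoint A B) :
    (univ.filter fun h : W → Fin q => ∀ x ∈ A, ∃ y ∈ B, h x = h y).card * q ^ A.card ≤
      B.card ^ A.card * q ^ Fintype.card W := by
  classical
  induction A using Finset.induction_on with
  | empty => simp
  | insert x A hx ih =>
    rw [disjoint_insert_left] at hd
    have key : (univ.filter fun h : W → Fin q => ∀ z ∈ insert x A, ∃ y ∈ B, h z = h y).card * q ≤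
        (univ.filter fun h : W → Fin q => ∀ z ∈ A, ∃ y ∈ B, h z = h y).card * B.card := by
      have hc : ∀ h : W → Fin q, ∃ y, (∃ y ∈ B, h x = h y) → y ∈ B ∧ h x = h y := fun h => by
        by_cases e : ∃ y ∈ B, h x = h y
        · obtain ⟨y, hy⟩ := e
          exact ⟨y, fun _ => hy⟩
        · exact ⟨x, fun e' => absurd e' e⟩
      choose p hp using hc
      have hu : ∀ (h : W → Fin q) (c : Fin q) (y : W), y ≠ x → Function.update h x c y = h y :=
        fun h c y hy => Function.update_of_ne hy _ _
      have hB : ∀ y ∈ B, y ≠ x := fun y hy e => hd.1 (e ▸ hy)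
      have hc : ∀ S : Finset (W → Fin q), S.card * q = (S ×ˢ (univ : Finset (Fin q))).card :=
        fun S => by rw [card_product, card_univ, Fintype.card_fin]
      rw [hc, ← card_product]
      refine card_le_card_of_injOn (fun t => (Function.update t.1 x t.2, p t.1)) ?_ ?_
      · rintro ⟨h, c⟩ ht
        simp only [coe_product, Set.mem_prod, mem_coe, mem_filter, mem_univ, true_and,
          and_true] at ht ⊢
        refine ⟨fun z hz => ?_, (hp h (ht x (mem_insert_self _ _))).1⟩
        obtain ⟨y, hy, e⟩ := ht z (mem_insert_of_mem hz)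
        exact ⟨y, hy, by rw [hu _ _ _ (fun e' => hx (e' ▸ hz)), hu _ _ _ (hB y hy), e]⟩
      · rintro ⟨h, c⟩ ht ⟨h', c'⟩ ht' e
        simp only [coe_product, Set.mem_prod, mem_coe, mem_filter, mem_univ, true_and,
          and_true] at ht ht'
        obtain ⟨e1, e2⟩ := Prod.ext_iff.1 e
        have e3 : ∀ y, y ≠ x → h y = h' y := fun y hy => by
          have : Function.update h x c y = Function.update h' x c' y := congrFun e1 y
          rwa [hu _ _ _ hy, hu _ _ _ hy] at this
        have a1 := hp h (ht x (mem_insert_self _ _))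
        have a2 := hp h' (ht' x (mem_insert_self _ _))
        refine Prod.ext (funext fun y => ?_) (by simpa using congrFun e1 x)
        by_cases hy : y = x
        · subst hy
          change h y = h' y
          rw [a1.2, a2.2, e3 _ (hB _ a1.1)]
          exact congrArg h' e2
        · exact e3 y hy
    rw [card_insert_of_notMem hx, pow_succ', pow_succ', ← mul_assoc, mul_assoc B.card]
    calc _ ≤ _ := Nat.mul_le_mul_right _ key
      _ = B.card * (_ * q ^ A.card) := by ring
      _ ≤ _ := Nat.mul_le_mul_left _ (ih hd.2)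

theorem ub {W : Type} [Fintype W] [DecidableEq W] (R : W → W → Prop) (M Z q : ℕ) (hZ : 1 ≤ Z)
    (hR : ∀ v, {u | R v u}.ncard ≤ M)
    (hq : (Fintype.card W * (Z * M + 1) ^ Z) ^ 2 * Z ^ Z < q ^ Z) :
    ∃ h : W → Fin q, ∀ (a b : ℕ → W) (N : ℕ), (∀ i < N, R (a i) (a (i + 1))) →
      (∀ i < N, R (b i) (b (i + 1))) → (∀ i ≤ N, ∀ j ≤ N, a i ≠ b j) →
      (∀ i ≤ N, h (a i) = h (b i)) → ((Finset.range (N + 1)).image a).card < Z := by
  classical
  obtain ⟨F, h1, -, h3⟩ := ub_grown R M Z hR Z le_rfl
  have hq0 : 0 < q := by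
    rcases Nat.eq_zero_or_pos q with rfl | h
    · rw [zero_pow (by omega)] at hq
      omega
    · exact h
  let E : Finset W × Finset W → Finset (W → Fin q) := fun t => univ.filter fun h =>
    (t.1.card = Z ∧ t.2.card ≤ Z ∧ Disjoint t.1 t.2) ∧ ∀ x ∈ t.1, ∃ y ∈ t.2, h x = h y
  have hE : ∀ t, (E t).card * q ^ Z ≤ Z ^ Z * q ^ Fintype.card W := fun t => by
    by_cases ht : t.1.card = Z ∧ t.2.card ≤ Z ∧ Disjoint t.1 t.2
    · have := ub_event q t.2 t.1 ht.2.2
      rw [ht.1] at this
      refine le_trans (Nat.mul_le_mul_right _ (card_le_card fun h hh => ?_))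
        (this.trans (Nat.mul_le_mul_right _ (Nat.pow_le_pow_left ht.2.1 _)))
      simp only [E, mem_filter, mem_univ, true_and] at hh ⊢
      exact hh.2
    · have : E t = ∅ := filter_eq_empty_iff.2 fun h _ e => ht e.1
      simp [this]
  have hlt : ((F ×ˢ F).biUnion E).card < (univ : Finset (W → Fin q)).card := by
    have a1 : ((F ×ˢ F).biUnion E).card * q ^ Z ≤
        (Fintype.card W * (Z * M + 1) ^ Z) ^ 2 * Z ^ Z * q ^ Fintype.card W := by
      calc _ ≤ (∑ t ∈ F ×ˢ F, (E t).card) * q ^ Z := Nat.mul_le_mul_right _ card_biUnion_le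
        _ = ∑ t ∈ F ×ˢ F, (E t).card * q ^ Z := sum_mul _ _ _
        _ ≤ ∑ _t ∈ F ×ˢ F, Z ^ Z * q ^ Fintype.card W := sum_le_sum fun t _ => hE t
        _ = F.card ^ 2 * Z ^ Z * q ^ Fintype.card W := by
          rw [sum_const, card_product, smul_eq_mul]; ring
        _ ≤ _ := by gcongr
    have a2 : (Fintype.card W * (Z * M + 1) ^ Z) ^ 2 * Z ^ Z * q ^ Fintype.card W <
        q ^ Fintype.card W * q ^ Z := by
      rw [mul_comm]
      exact Nat.mul_lt_mul_of_pos_left hq (by positivity)
    rw [card_univ, Fintype.card_fun, Fintype.card_fin]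
    exact lt_of_mul_lt_mul_right (a1.trans_lt a2) (Nat.zero_le _)
  obtain ⟨h, -, hh⟩ := exists_mem_notMem_of_card_lt_card hlt
  have one : ∀ (a b : ℕ → W) (N : ℕ), (∀ i < N, R (a i) (a (i + 1))) →
      (∀ i < N, R (b i) (b (i + 1))) → (∀ i ≤ N, ∀ j ≤ N, a i ≠ b j) →
      (∀ i ≤ N, h (a i) = h (b i)) → ((range (N + 1)).image a).card ≤ Z →
      ((range (N + 1)).image b).card ≤ Z → ((range (N + 1)).image a).card < Z := by
    intro a b N ha hb hab he c1 c2
    refine lt_of_le_of_ne c1 fun c3 => hh (mem_biUnion.2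
      ⟨((range (N + 1)).image a, (range (N + 1)).image b),
        mem_product.2 ⟨h3 a N ha (by omega), h3 b N hb (by omega)⟩, ?_⟩)
    simp only [E, mem_filter, mem_univ, true_and]
    refine ⟨⟨c3, c2, disjoint_left.2 fun x hx hx' => ?_⟩, fun x hx => ?_⟩
    · obtain ⟨i, hi, rfl⟩ := mem_image.1 hx
      obtain ⟨j, hj, e⟩ := mem_image.1 hx'
      exact hab i (by simpa [Nat.lt_succ_iff] using hi) j (by simpa [Nat.lt_succ_iff] using hj) e.symm
    · obtain ⟨i, hi, rfl⟩ := mem_image.1 hx
      exact ⟨b i, mem_image_of_mem _ hi, he i (by simpa [Nat.lt_succ_iff] using hi)⟩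
  have both : ∀ (a b : ℕ → W) (N : ℕ), (∀ i < N, R (a i) (a (i + 1))) →
      (∀ i < N, R (b i) (b (i + 1))) → (∀ i ≤ N, ∀ j ≤ N, a i ≠ b j) →
      (∀ i ≤ N, h (a i) = h (b i)) → ((range (N + 1)).image a).card ≤ Z ∧
      ((range (N + 1)).image b).card ≤ Z := by
    intro a b N
    induction N with
    | zero => intro _ _ _ _; simpa using hZ
    | succ N ih =>
      intro ha hb hab he
      have ha' : ∀ i < N, R (a i) (a (i + 1)) := fun i hi => ha i (by omega)
      have hb' : ∀ i < N, R (b i) (b (i + 1)) := fun i hi => hb i (by omega)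
      have hab' : ∀ i ≤ N, ∀ j ≤ N, a i ≠ b j := fun i hi j hj => hab i (by omega) j (by omega)
      have he' : ∀ i ≤ N, h (a i) = h (b i) := fun i hi => he i (by omega)
      obtain ⟨c1, c2⟩ := ih ha' hb' hab' he'
      have d1 := one a b N ha' hb' hab' he' c1 c2
      have d2 := one b a N hb' ha' (fun i hi j hj => (hab' j hj i hi).symm)
        (fun i hi => (he' i hi).symm) c2 c1
      rw [range_add_one (n := N + 1), image_insert, image_insert]
      exact ⟨(card_insert_le _ _).trans d1, (card_insert_le _ _).trans d2⟩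
  exact ⟨h, fun a b N ha hb hab he =>
    one a b N ha hb hab he (both a b N ha hb hab he).1 (both a b N ha hb hab he).2⟩

end Pool.Agent.Lib.MP_e7c4c5_co.Qp
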