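import Pool.Agent.Lib.MP_e7c4c5_co.Qp.Band
import Pool.Agent.Lib.MP_e7c4c5_co.Qp.UB
import Pool.Agent.Lib.MP_e7c4c5_co.Sub.Core

/-!
The colouring: level, a nonrepetitive colour for the graph of ties, and six slots per context.
-/

set_option autoImplicit false

namespace Pool.Agent.Lib.MP_e7c4c5_co.Qp

open Pool.Agent.Lib.MP_e7c4c5_co.Sub

variable {V : Type} {G : SimpleGraph V} {ℓ : V → ℕ}

theorem exists_display {β : Type} (Z : ℕ) (P : V → ℕ → Prop) (hP : ∀ v j, P v j → j < Z)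
    (f : V → ℕ → β) :
    ∃ dsp : V → Fin 6 → Option (Fin Z × β), ∀ a b, dsp a = dsp b → ∀ j, P a j →
      {i | j < i ∧ P a i}.ncard ≤ 5 → P b j ∧ f a j = f b j := by
  classical
  have hlt : ∀ v j j', j < j' → P v j' → {i | j' < i ∧ P v i}.ncard < {i | j < i ∧ P v i}.ncard :=
    fun v j j' h1 h2 => Set.ncard_lt_ncard ⟨fun i hi => ⟨h1.trans hi.1, hi.2⟩,
      fun h => lt_irrefl _ (h ⟨h1, h2⟩).1⟩ ((Set.finite_Iio Z).subset fun i hi => hP v i hi.2)
  have hs : ∀ (v : V) (t : Fin 6), ∃ o : Option (Fin Z × β),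
      (∀ x, o = some x → P v x.1 ∧ {i | (x.1 : ℕ) < i ∧ P v i}.ncard = t ∧ x.2 = f v x.1) ∧
      ∀ j, P v j → {i | j < i ∧ P v i}.ncard = t → ∃ x, o = some x := by
    intro v t
    by_cases h : ∃ j, P v j ∧ {i | j < i ∧ P v i}.ncard = t
    · obtain ⟨j, h1, h2⟩ := h
      refine ⟨some (⟨j, hP v j h1⟩, f v j), fun x hx => ?_, fun _ _ _ => ⟨_, rfl⟩⟩
      obtain rfl := Option.some.inj hx
      exact ⟨h1, h2, rfl⟩
    · exact ⟨none, fun x hx => by simp at hx, fun j h1 h2 => absurd ⟨j, h1, h2⟩ h⟩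
  choose dsp h1 h2 using hs
  refine ⟨dsp, fun a b hab j hj hr => ?_⟩
  obtain ⟨x, hx⟩ := h2 a ⟨_, Nat.lt_succ_of_le hr⟩ j hj rfl
  obtain ⟨a1, a2, a3⟩ := h1 a _ x hx
  obtain ⟨b1, -, b3⟩ := h1 b _ x (hab ▸ hx)
  have h3 : (x.1 : ℕ) = j := by
    simp only at a2
    rcases lt_trichotomy (x.1 : ℕ) j with h | h | h
    · have := hlt a _ _ h hj
      omega
    · exact h
    · have := hlt a _ _ h a1
      omega
  rw [h3] at b1 a3 b3
  exact ⟨b1, a3.symm.trans b3⟩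

theorem top_near {C : Type} {c : V → C} {J X t : ℕ} (hN : NoExc G ℓ c J X)
    (hc : ∀ a b, c a = c b → ℓ a = ℓ b) {w : ℕ → V}
    (hw : ∀ j, j + 1 < 2 * t → G.Adj (w j) (w (j + 1)))
    (hinj : ∀ i < 2 * t, ∀ j < 2 * t, w i = w j → i = j) (hrep : ∀ i < t, c (w i) = c (w (t + i)))
    {x z : ℕ} (hxz : x < z) (hz : z < 2 * t) (h1 : ℓ (w x) = J) (h2 : ℓ (w z) = J)
    (h3 : ∀ i, x < i → i < z → ℓ (w i) < J) : Near G ℓ J (2 * X + 1) (w x) (w z) := by
  have w1 : IsWalk G w (t - 1) := fun i hi => hw i (by omega)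
  have w2 : IsWalk G (fun i => w (t + i)) (t - 1) := fun i hi => hw (t + i) (by omega)
  have hp : ∀ i ≤ t - 1, w i ≠ w (t + i) ∧ c (w i) = c (w (t + i)) := fun i hi =>
    ⟨fun e => by have := hinj _ (by omega) _ (by omega) e; omega, hrep i (by omega)⟩
  by_cases c1 : z < t
  · exact (hN.link hc w1 w2 hp hxz.le (by omega) h1.ge h3).1.mono le_rfl (by omega)
  by_cases c2 : t ≤ x
  · have := (hN.link (a := x - t) (b := z - t) hc w2 w1
      (fun i hi => ⟨(hp i hi).1.symm, (hp i hi).2.symm⟩) (by omega) (by omega)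
      (by simpa only [show t + (x - t) = x by omega] using h1.ge)
      fun i hi hi' => h3 _ (by omega) (by omega)).1
    simp only [show t + (x - t) = x by omega, show t + (z - t) = z by omega] at this
    exact this.mono le_rfl (by omega)
  have k1 := (hN.link (a := x) (b := t - 1) hc w1 w2 hp (by omega) le_rfl h1.ge
    fun i hi hi' => h3 i hi (by omega)).1
  have w3 : IsWalk G (fun i => w (t + (t - 1 - i))) (t - 1) := fun i hi => by
    have := (hw (t + (t - 1 - (i + 1))) (by omega)).symm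
    rwa [show t + (t - 1 - (i + 1)) + 1 = t + (t - 1 - i) by omega] at this
  have w4 : IsWalk G (fun i => w (t - 1 - i)) (t - 1) := fun i hi => by
    have := (hw (t - 1 - (i + 1)) (by omega)).symm
    rwa [show t - 1 - (i + 1) + 1 = t - 1 - i by omega] at this
  have k2 := (hN.link (a := 2 * t - 1 - z) (b := t - 1) hc w3 w4
    (fun i hi => ⟨(hp _ (by omega)).1.symm, (hp _ (by omega)).2.symm⟩) (by omega) le_rfl
    (by simpa only [show t + (t - 1 - (2 * t - 1 - z)) = z by omega] using h2.ge)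
    fun i hi hi' => h3 _ (by omega) (by omega)).1
  simp only [show t + (t - 1 - (2 * t - 1 - z)) = z by omega, Nat.sub_self, add_zero] at k2
  have k3 : Near G ℓ J 1 (w (t - 1)) (w t) := by
    have := hw (t - 1) (by omega)
    rw [show t - 1 + 1 = t by omega] at this
    exact Near.adj J this
  have k4 := k1.trans k3 (by
    by_cases e : x = t - 1
    · exact Or.inr (Or.inl (by rw [e]))
    · exact Or.inl (h3 _ (by omega) (by omega)))
  exact (k4.trans k2.symm (by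
    by_cases e : t = z
    · exact Or.inr (Or.inr (by rw [e]))
    · exact Or.inl (h3 _ (by omega) (by omega)))).mono le_rfl (by omega)

theorem tie_le [Fintype V] {ρ M n : ℕ} (hR : ∀ v, {x | Reach G ρ {u | ℓ v ≤ ℓ u} v x}.ncard ≤ M)
    (p : V × Fin n) : {p' : V × Fin n | Tie G ℓ ρ p p'}.ncard ≤ (M + 1) * n := by
  have h1 : {p' : V × Fin n | Tie G ℓ ρ p p'} =
      insert p.1 {x | Reach G ρ {u | ℓ p.1 ≤ ℓ u} p.1 x} ×ˢ Set.univ := by
    ext p'
    simp [Tie]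
  rw [h1, Set.ncard_prod, Set.ncard_univ, Nat.card_eq_fintype_card, Fintype.card_fin]
  exact Nat.mul_le_mul_right _ ((Set.ncard_insert_le _ _).trans (Nat.succ_le_succ (hR _)))

theorem core2 [Fintype V] (G : SimpleGraph V) (Z D M q : ℕ) (hM : 0 < M) (hZ : 1 ≤ Z)
    (hD : Z ≤ 2 ^ D) (ℓ : V → ℕ) (hℓ : ∀ v, ℓ v < Z)
    (hR : ∀ v, {x | Reach G (6 * (5 * Z ^ 3) ^ D) {u | ℓ v ≤ ℓ u} v x}.ncard ≤ M)
    (hT : ∀ v j, ℓ v < j → {x | j + 1 ≤ ℓ x ∧ Near G ℓ j (6 * (5 * Z ^ 3) ^ D) v x}.ncard ≤ 4)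
    (hq : (Fintype.card V * (Z * Z + 1) * (Z * ((M + 1) * (Z * Z + 1)) + 1) ^ Z) ^ 2 * Z ^ Z <
      q ^ Z) :
    ∃ c : V → Fin Z × Fin (10 * M ^ 4) × (Fin D → Fin 6 → Option (Fin Z × Fin q)),
      ∀ (t : ℕ) (w : ℕ → V), 0 < t → (∀ j, j + 1 < 2 * t → G.Adj (w j) (w (j + 1))) →
        (∀ i < 2 * t, ∀ j < 2 * t, w i = w j → i = j) → ∃ i < t, c (w i) ≠ c (w (t + i)) := by
  classical
  obtain ⟨ψ, hψ⟩ := rosenfeld
    (fun v x => Reach G (6 * (5 * Z ^ 3) ^ D) {u | ℓ v ≤ ℓ u} v x) M hM hR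
  obtain ⟨h, hh⟩ := ub (W := V × Fin (Z * Z + 1)) (Tie G ℓ (6 * (5 * Z ^ 3) ^ D)) _ Z q hZ
    (tie_le hR) (by simpa only [Fintype.card_prod, Fintype.card_fin] using hq)
  choose dsp hdsp using fun d : Fin D => exists_display Z
    (fun v j => InR G ℓ Z ((5 * Z ^ 3) ^ (d : ℕ)) (ctx (D - (d + 1)) (ℓ v)) j v)
    (fun v j hj => hj.2.anc_spec.1 ▸ hℓ _) fun v j => h (obj G ℓ Z ((5 * Z ^ 3) ^ (d : ℕ)) j v)
  let c : V → Fin Z × Fin (10 * M ^ 4) × (Fin D → Fin 6 → Option (Fin Z × Fin q)) :=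
    fun v => (⟨ℓ v, hℓ v⟩, ψ v, fun d => dsp d v)
  have hc : ∀ a b, c a = c b → ℓ a = ℓ b := fun a b e => congrArg (fun x => (x.1 : ℕ)) e
  have hN := noExc_all (c := c) hh hZ hD hℓ hT hc (fun a b e hab hn => by
      have e1 := hc a b e
      obtain ⟨i, hi, hne⟩ := hψ 1 (fun i => if i = 0 then a else b) Nat.one_pos (fun j hj => by
        obtain rfl : j = 0 := by omega
        exact ⟨hn.reach le_rfl e1.le hab.symm, hn.symm.reach e1.le e1.ge hab⟩)
        (fun i hi j hj e => by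
          obtain rfl | rfl : i = 0 ∨ i = 1 := by omega
          all_goals obtain rfl | rfl : j = 0 ∨ j = 1 := by omega
          · rfl
          · exact absurd e hab
          · exact absurd e hab.symm
          · rfl)
      obtain rfl : i = 0 := by omega
      exact hne (congrArg (fun x => x.2.1) e)) (fun d hd a b e j hj hr => by
      have := hdsp ⟨d, hd⟩ a b (congrArg (fun x => x.2.2 ⟨d, hd⟩) e) j hj hr
      rwa [← hc a b e] at this) D le_rfl
  refine ⟨c, fun t w ht hw hinj => ?_⟩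
  by_contra hcon
  push Not at hcon
  obtain ⟨m, J, P, hm, h1, h2, h3, h4⟩ := exists_top (fun i => ℓ (w i)) t ht
    fun i hi => (hc _ _ (hcon i hi)).symm
  have hJ : J < Z := (h1 0 (by omega)).2 ▸ hℓ _
  have hX : 1 ≤ (5 * Z ^ 3) ^ D := Nat.succ_le_of_lt (by positivity)
  obtain ⟨i, hi, hne⟩ := hψ m (fun a => w (P a)) hm (fun j hj => by
    have e1 := h1 j (by omega)
    have e2 := h1 (j + 1) hj
    have e3 := h2 j (j + 1) (by omega) hj
    have e4 := (top_near (hN J hJ (by simp)) hc hw hinj hcon e3 e2.1 e1.2 e2.2 (h4 j hj)).mono le_rfl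
      (show _ ≤ 6 * (5 * Z ^ 3) ^ D by omega)
    have e5 : w (P j) ≠ w (P (j + 1)) := fun e => e3.ne (hinj _ e1.1 _ e2.1 e)
    exact ⟨e4.reach e1.2.ge (e1.2.trans e2.2.symm).le e5.symm,
      e4.symm.reach e2.2.ge (e2.2.trans e1.2.symm).le e5⟩) (fun i hi j hj e => by
    have := hinj _ (h1 i hi).1 _ (h1 j hj).1 e
    rcases lt_trichotomy i j with h | h | h
    · have := h2 i j h hj; omega
    · exact h
    · have := h2 j i h hi; omega)
  apply hne
  show ψ (w (P i)) = ψ (w (P (m + i)))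
  rw [(h3 i hi).2]
  exact congrArg (fun x => x.2.1) (hcon _ (h3 i hi).1)

end Pool.Agent.Lib.MP_e7c4c5_co.Qp
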